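import Mathlib

set_option autoImplicit false

/-!
Row CAL-Arith: Galois conjugation of polynomial relations of roots of unity.
-/

namespace CAL

/-- `z` is an algebraic integer lying in the prime ideal `P` of the ring of all algebraic integers. -/
def InP (P : Ideal (integralClosure ℤ ℂ)) (z : ℂ) : Prop :=
  ∃ w : integralClosure ℤ ℂ, w ∈ P ∧ (w : ℂ) = z

/-- Galois conjugation of relations: `minpoly ℚ (ζ^k) = minpoly ℚ ζ` for `k` prime to `N`
(`IsPrimitiveRoot.minpoly_eq_pow_coprime`, `IsPrimitiveRoot.minpoly_dvd...`, or `cyclotomic`: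
`Polynomial.cyclotomic_eq_minpoly_rat`, `minpoly.dvd`). -/
theorem gal_poly (N : ℕ) (hN : 0 < N) (ζ : ℂ) (hζ : IsPrimitiveRoot ζ N) (k : ℕ) (hk : k.Coprime N)
    (q : Polynomial ℚ) (hq : Polynomial.aeval ζ q = 0) : Polynomial.aeval (ζ ^ k) q = 0 := by
  have h1 : minpoly ℚ ζ = minpoly ℚ (ζ ^ k) := by
    have hprim : IsPrimitiveRoot (ζ ^ k) N := hζ.pow_of_coprime k hk
    rw [← Polynomial.cyclotomic_eq_minpoly_rat hζ hN, ← Polynomial.cyclotomic_eq_minpoly_rat hprim hN]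
  have h2 : minpoly ℚ ζ ∣ q := minpoly.dvd ℚ ζ hq
  obtain ⟨r, hr⟩ := h2
  rw [hr, map_mul, h1, minpoly.aeval, zero_mul]

end CAL
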