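import Mathlib

set_option autoImplicit false

/-!
Row CAL-Spec: spectral theorem for commutative star-closed algebras of complex matrices.

PROOF of `spec`. Let A be the subalgebra; it is a commutative ring, finite-dimensional over ℂ, so
Artinian. It is reduced: if x in A is nilpotent, then y = xᴴ x in A is nilpotent (A commutative),
so trace y = 0 (a nilpotent matrix has trace 0), but trace (xᴴ x) = Σ |x a b|^2, so x = 0.
Hence A ≃ Π over the maximal ideals m of A / m (Mathlib: `IsArtinianRing.equivPi`), and every A / m is a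
finite-dimensional field extension of ℂ, so equal to ℂ (`IsAlgClosed`). Let E m be the preimage of
Pi.single m 1. Then E m ≠ 0, E m * E m' = 0 or E m, Σ E m = 1, and x * E m is a scalar multiple of E m.
Hermitian: (E m)ᴴ in A; (E m)ᴴ * E m = c • E m; taking traces c * tr(E m) = Σ |E m a b|^2 > 0, so c ≠ 0;
(E m)ᴴ is again one of the primitive idempotents: from (E m)ᴴ * E m = c • E m and by conjugate-transposing
(E m)ᴴ * E m = c̄ • (E m)ᴴ, so c • E m = c̄ • (E m)ᴴ; squaring (both idempotent): with (E m)ᴴ = (c/c̄) • E m,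
(c/c̄)^2 = c/c̄, so c/c̄ = 1 and (E m)ᴴ = E m.
(Alternative: minimal nonzero idempotents / simultaneous diagonalization of the commuting hermitian
matrices x + xᴴ, i (x - xᴴ), x in A, `LinearMap.IsSymmetric`.)
-/

namespace CAL

open Matrix

open scoped ComplexOrder

theorem spec_abs (R : Type) [CommRing R] [Algebra ℂ R] [Module.Finite ℂ R] [IsReduced R] :
    ∃ (ι : Type) (_ : Fintype ι) (_ : DecidableEq ι) (E : ι → R),
      (∀ i, E i ≠ 0) ∧ (∀ i j, E i * E j = if i = j then E i else 0) ∧ (∑ i, E i = 1) ∧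
      (∀ x : R, ∀ i, ∃ c : ℂ, x * E i = c • E i) := by
  classical
  have : IsArtinianRing R := IsArtinianRing.of_finite ℂ R
  let φ := IsArtinianRing.equivPi R
  let : Fintype (MaximalSpectrum R) := Fintype.ofFinite _
  refine ⟨MaximalSpectrum R, inferInstance, inferInstance,
    fun m => φ.symm (Pi.single m 1), fun m h0 => ?_, fun m m' => ?_, ?_, fun x m => ?_⟩
  · have h1 : (Pi.single m 1 : ∀ I : MaximalSpectrum R, R ⧸ I.asIdeal) = 0 := by
      have := congrArg φ h0
      rwa [AlgEquiv.apply_symm_apply, map_zero] at this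
    have h2 := congrFun h1 m
    rw [Pi.single_eq_same, Pi.zero_apply] at h2
    have : Nontrivial (R ⧸ m.asIdeal) := Ideal.Quotient.nontrivial_iff.2 m.isMaximal.ne_top
    exact one_ne_zero h2
  · rw [← map_mul]
    split_ifs with h
    · subst h
      congr 1
      rw [← Pi.single_mul, one_mul]
    · have h1 : (Pi.single m 1 * Pi.single m' 1 : ∀ I : MaximalSpectrum R, R ⧸ I.asIdeal) = 0 := by
        funext k
        rw [Pi.mul_apply, Pi.zero_apply]
        by_cases hk : k = m
        · subst hk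
          rw [Pi.single_eq_of_ne h, mul_zero]
        · rw [Pi.single_eq_of_ne hk, zero_mul]
      rw [h1, map_zero]
  · rw [← map_sum]
    have h1 : (∑ m : MaximalSpectrum R, Pi.single m 1 : ∀ I : MaximalSpectrum R, R ⧸ I.asIdeal) = 1 :=
      Finset.univ_sum_single _
    rw [h1, map_one]
  · have : Nontrivial (R ⧸ m.asIdeal) := Ideal.Quotient.nontrivial_iff.2 m.isMaximal.ne_top
    have : m.asIdeal.IsPrime := m.isMaximal.isPrime
    have : IsDomain (R ⧸ m.asIdeal) := Ideal.Quotient.isDomain m.asIdeal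
    have : Module.Finite ℂ (R ⧸ m.asIdeal) :=
      Module.Finite.of_surjective (Ideal.Quotient.mkₐ ℂ m.asIdeal).toLinearMap
        (Ideal.Quotient.mkₐ_surjective ℂ m.asIdeal)
    have : Algebra.IsIntegral ℂ (R ⧸ m.asIdeal) := Algebra.IsIntegral.of_finite ℂ _
    obtain ⟨c, hc⟩ := (IsAlgClosed.algebraMap_bijective_of_isIntegral (k := ℂ)
      (K := R ⧸ m.asIdeal)).2 (Ideal.Quotient.mk m.asIdeal x)
    refine ⟨c, ?_⟩
    apply φ.injective
    rw [Algebra.smul_def, map_mul, map_mul, AlgEquiv.apply_symm_apply]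
    funext k
    rw [Pi.mul_apply, Pi.mul_apply]
    by_cases hk : k = m
    · subst hk
      rw [Pi.single_eq_same, mul_one, mul_one]
      change (Ideal.Quotient.mk k.asIdeal x) = (Ideal.Quotient.mk k.asIdeal (algebraMap ℂ R c))
      rw [← hc]
      rfl
    · rw [Pi.single_eq_of_ne hk, mul_zero, mul_zero]

theorem spec {Q : Type} [Fintype Q] [DecidableEq Q] (A : Subalgebra ℂ (Matrix Q Q ℂ))
    (hc : ∀ x ∈ A, ∀ y ∈ A, x * y = y * x) (hs : ∀ x ∈ A, xᴴ ∈ A) :
    ∃ (ι : Type) (_ : Fintype ι) (_ : DecidableEq ι) (E : ι → Matrix Q Q ℂ),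
      (∀ i, E i ∈ A) ∧ (∀ i, E i ≠ 0) ∧ (∀ i j, E i * E j = if i = j then E i else 0) ∧
      (∑ i, E i = 1) ∧ (∀ i, (E i)ᴴ = E i) ∧ (∀ M ∈ A, ∀ i, ∃ c : ℂ, M * E i = c • E i) := by
  classical
  let iR : CommRing A := { (inferInstance : Ring A) with
    mul_comm := fun x y => Subtype.ext (hc x x.2 y y.2) }
  have hfin : Module.Finite ℂ A := inferInstance
  have hred : @IsReduced A _ _ := by
    refine ⟨fun x hx => ?_⟩
    obtain ⟨n, hn⟩ := hx
    have h1 : (x : Matrix Q Q ℂ) ^ n = 0 := by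
      have := congrArg (Subtype.val) hn
      exact this
    have h2 : ((x : Matrix Q Q ℂ)ᴴ * x) ^ n = 0 := by
      have hcomm : Commute ((x : Matrix Q Q ℂ)ᴴ) x := hc _ (hs x x.2) x x.2
      rw [hcomm.mul_pow, h1, mul_zero]
    have h3 : ((x : Matrix Q Q ℂ)ᴴ * x).trace = 0 :=
      (Matrix.isNilpotent_trace_of_isNilpotent ⟨n, h2⟩).eq_zero
    have h4 := Matrix.trace_conjTranspose_mul_self_eq_zero_iff.1 h3
    exact Subtype.ext h4
  obtain ⟨ι, _, _, E, hne, horth, hsum, hscal⟩ :=
    @spec_abs A iR (Subalgebra.algebra A) hfin hred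
  have hE0 : ∀ i, (E i : Matrix Q Q ℂ) ≠ 0 := fun i h0 => hne i (Subtype.ext h0)
  have hsc : ∀ M ∈ A, ∀ i, ∃ c : ℂ, M * (E i : Matrix Q Q ℂ) = c • (E i : Matrix Q Q ℂ) := by
    intro M hM i
    obtain ⟨c, hc⟩ := hscal ⟨M, hM⟩ i
    exact ⟨c, congrArg Subtype.val hc⟩
  have hid : ∀ i, (E i : Matrix Q Q ℂ) * E i = E i := fun i => by
    have := horth i i
    rw [if_pos rfl] at this
    exact congrArg Subtype.val this
  refine ⟨ι, inferInstance, inferInstance, fun i => (E i : Matrix Q Q ℂ), fun i => (E i).2,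
    hE0, fun i j => ?_, ?_, fun i => ?_, hsc⟩
  · have := congrArg Subtype.val (horth i j)
    split_ifs with h
    · rw [if_pos h] at this
      exact this
    · rw [if_neg h] at this
      exact this
  · have := congrArg (A.val) hsum
    rw [map_sum, map_one] at this
    exact this
  · obtain ⟨c, hcE⟩ := hsc _ (hs _ (E i).2) i
    have hc0 : c ≠ 0 := by
      intro h0
      rw [h0, zero_smul] at hcE
      exact hE0 i (Matrix.conjTranspose_mul_self_eq_zero.1 hcE)
    have h1 : (E i : Matrix Q Q ℂ)ᴴ * (E i : Matrix Q Q ℂ) = (starRingEnd ℂ c) • (E i : Matrix Q Q ℂ)ᴴ := by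
      have := congrArg Matrix.conjTranspose hcE
      rw [Matrix.conjTranspose_mul, Matrix.conjTranspose_conjTranspose,
        Matrix.conjTranspose_smul] at this
      exact this
    have hcb : (starRingEnd ℂ c) ≠ 0 := (map_ne_zero _).2 hc0
    have h2 : (E i : Matrix Q Q ℂ)ᴴ = ((starRingEnd ℂ c)⁻¹ * c) • (E i : Matrix Q Q ℂ) := by
      rw [← smul_smul, ← hcE, h1, smul_smul, inv_mul_cancel₀ hcb, one_smul]
    set t := (starRingEnd ℂ c)⁻¹ * c with ht
    have ht0 : t ≠ 0 := mul_ne_zero (inv_ne_zero hcb) hc0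
    have h3 : (E i : Matrix Q Q ℂ)ᴴ * (E i : Matrix Q Q ℂ)ᴴ = (E i : Matrix Q Q ℂ)ᴴ := by
      rw [← Matrix.conjTranspose_mul, hid]
    rw [h2, Matrix.smul_mul, Matrix.mul_smul, hid, smul_smul] at h3
    have h4 : (t * t - t) • (E i : Matrix Q Q ℂ) = 0 := by rw [sub_smul, h3, sub_self]
    rcases smul_eq_zero.1 h4 with h5 | h5
    · have h6 : t = 1 := by
        have h7 : t * (t - 1) = 0 := by rw [mul_sub, mul_one]; exact h5
        rcases mul_eq_zero.1 h7 with h8 | h8
        · exact absurd h8 ht0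
        · exact sub_eq_zero.1 h8
      rw [h2, h6, one_smul]
    · exact absurd h5 (hE0 i)

/-- The trace of an idempotent complex matrix is its rank, a natural number; positive if the matrix is
not zero. (E.g. `LinearMap.IsIdempotentElem` / `LinearMap.IsProj.trace`: the trace of a projection is the
dimension of its range.) -/
theorem trace_idem {Q : Type} [Fintype Q] [DecidableEq Q] (E : Matrix Q Q ℂ) (hE : E * E = E) :
    ∃ f : ℕ, E.trace = (f : ℂ) ∧ (E ≠ 0 → 0 < f) := by
  have h1 : IsIdempotentElem (Matrix.toLin' E) := by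
    unfold IsIdempotentElem
    rw [Module.End.mul_eq_comp, ← Matrix.toLin'_mul, hE]
  have h2 := (LinearMap.IsIdempotentElem.isProj_range _ h1).trace
  rw [Matrix.trace_toLin'_eq] at h2
  refine ⟨_, h2, fun hne => ?_⟩
  rw [Nat.pos_iff_ne_zero]
  intro h3
  rw [h3, Nat.cast_zero] at h2
  apply hne
  have h4 : LinearMap.trace ℂ (Q → ℂ) (Matrix.toLin' E) = 0 := by
    rw [Matrix.trace_toLin'_eq]
    exact h2
  have h5 := LinearMap.IsIdempotentElem.eq_zero_of_trace_eq_zero h1 h4
  exact (LinearEquiv.map_eq_zero_iff _).1 h5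

end CAL
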