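import Pool.Agent.CAL.Sph
import Pool.Agent.CAL.Spec

set_option autoImplicit false
set_option linter.unusedSectionVars false

/-!
Row CAL-Fam: the family of all spherical idempotents.
-/

namespace CAL

open Matrix

variable {Q : Type} [Fintype Q] [DecidableEq Q] {mul : Q → Q → Q} {e : Q}

/-- The complete system of spherical idempotents; `i0` is the trivial one. -/
structure Fam (mul : Q → Q → Q) {ι : Type} [Fintype ι] [DecidableEq ι]
    (E : ι → Matrix Q Q ℂ) (f : ι → ℕ) (i0 : ι) : Prop where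
  sph : ∀ i, Sph mul (E i) (f i)
  orth : ∀ i j, E i * E j = if i = j then E i else 0
  sum_one : ∑ i, E i = 1
  triv : E i0 = ((Fintype.card Q : ℂ))⁻¹ • ones Q
  ann : ∀ i, i ≠ i0 → E i * ones Q = 0

/-- The algebra of invariant matrices. -/
def invAlg (h : IsLoop mul e) : Subalgebra ℂ (Matrix Q Q ℂ) where
  carrier := {M | Inv mul M}
  mul_mem' := fun hM hN => inv_mul h hM hN
  one_mem' := inv_one h
  add_mem' := fun hM hN => inv_add hM hN
  zero_mem' := ⟨fun _ _ _ => rfl, fun _ _ _ => rfl⟩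
  algebraMap_mem' := fun r => by
    rw [Algebra.algebraMap_eq_smul_one]
    exact inv_smul r (inv_one h)

theorem mem_invAlg (h : IsLoop mul e) (M : Matrix Q Q ℂ) : M ∈ invAlg h ↔ Inv mul M := Iff.rfl

theorem inv_mul_ones (h : IsLoop mul e) {M : Matrix Q Q ℂ} (hM : Inv mul M) :
    M * ones Q = (∑ z, M e z) • ones Q := by
  ext a b
  rw [Matrix.mul_apply, Matrix.smul_apply]
  have h1 : ∀ c, M a c * ones Q c b = M e (ld h a c) := by
    intro c
    rw [inv_left' h hM a c]
    exact mul_one _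
  rw [Finset.sum_congr rfl fun c _ => h1 c]
  have h2 : ∑ c, M e (ld h a c) = ∑ z, M e z :=
    Equiv.sum_comp (Lp h a).symm (fun z => M e z)
  rw [h2]
  exact (mul_one _).symm

theorem ones_mul_ones : ones Q * ones Q = (Fintype.card Q : ℂ) • ones Q := by
  ext a b
  rw [Matrix.mul_apply, Matrix.smul_apply]
  unfold ones
  simp

/-- PROOF. Apply `spec` to the subalgebra A of all M with `Inv mul M` (closed under the operations by
`inv_one`, `inv_add`, `inv_mul`, `inv_smul`, `inv_conjT`; commutative by `inv_comm`) and `trace_idem`.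
The trivial index: let J = ones Q in A, J * E i = w_i • E i. Every M in A satisfies M * J = c_M • J
(row sums are constant: `inv_left'`). J = Σ J * E i is not 0, so some w_{i0} ≠ 0, and then
E i0 = w⁻¹ • (J * E i0) = w⁻¹ • (E i0 * J) = (w⁻¹ c) • J; since E i0 is idempotent and not 0 and J * J = n • J,
E i0 = n⁻¹ • J. For i ≠ i0: E i * E i0 = 0, so E i * J = 0. -/
theorem exists_fam (h : IsLoop mul e) :
    ∃ (ι : Type) (_ : Fintype ι) (_ : DecidableEq ι) (E : ι → Matrix Q Q ℂ) (f : ι → ℕ) (i0 : ι),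
      Fam mul E f i0 := by
  obtain ⟨ι, _, _, E, hA, hne, horth, hsum, hherm, hscal⟩ := spec (invAlg h)
    (fun x hx y hy => inv_comm h hx hy) (fun x hx => inv_conjT hx)
  have hidem : ∀ i, E i * E i = E i := fun i => by
    have := horth i i
    rwa [if_pos rfl] at this
  choose f hf hpos using fun i => trace_idem (E i) (hidem i)
  choose w hw using fun i => hscal (ones Q) inv_ones i
  have hn : (Fintype.card Q : ℂ) ≠ 0 := by
    have : Nonempty Q := ⟨e⟩
    exact_mod_cast Fintype.card_ne_zero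
  have hJ0 : ones Q ≠ 0 := by
    intro h0
    have := congrFun (congrFun h0 e) e
    exact one_ne_zero this
  have hex : ∃ i0, w i0 ≠ 0 := by
    by_contra hcon
    push Not at hcon
    apply hJ0
    calc ones Q = ones Q * ∑ i, E i := by rw [hsum, Matrix.mul_one]
      _ = ∑ i, ones Q * E i := Finset.mul_sum _ _ _
      _ = ∑ i, (0 : Matrix Q Q ℂ) := Finset.sum_congr rfl fun i _ => by rw [hw, hcon, zero_smul]
      _ = 0 := by simp
  obtain ⟨i0, hi0⟩ := hex
  have htriv : E i0 = ((Fintype.card Q : ℂ))⁻¹ • ones Q := by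
    have h1 : w i0 • E i0 = (∑ z, E i0 e z) • ones Q := by
      rw [← hw i0, ← inv_mul_ones h (hA i0)]
      exact inv_comm h inv_ones (hA i0)
    obtain ⟨t, ht⟩ : ∃ t : ℂ, E i0 = t • ones Q := by
      refine ⟨(w i0)⁻¹ * ∑ z, E i0 e z, ?_⟩
      rw [← smul_smul, ← h1, smul_smul, inv_mul_cancel₀ hi0, one_smul]
    have ht0 : t ≠ 0 := by
      intro h0
      apply hne i0
      rw [ht, h0, zero_smul]
    have h2 := hidem i0
    rw [ht, Matrix.smul_mul, Matrix.mul_smul, ones_mul_ones, smul_smul, smul_smul] at h2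
    have h3 := congrFun (congrFun h2 e) e
    simp only [Matrix.smul_apply, ones, smul_eq_mul, mul_one] at h3
    have h4 : t * (Fintype.card Q : ℂ) = 1 := by
      have h5 : t * (t * (Fintype.card Q : ℂ)) = t * 1 := by
        rw [mul_one, ← mul_assoc]
        exact h3
      exact mul_left_cancel₀ ht0 h5
    rw [ht]
    congr 1
    exact eq_inv_of_mul_eq_one_left h4
  refine ⟨ι, inferInstance, inferInstance, E, f, i0, ?_⟩
  refine ⟨fun i => ⟨hA i, hidem i, hherm i, hf i, hpos i (hne i), fun M hM => hscal M hM i⟩,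
    horth, hsum, htriv, ?_⟩
  intro i hi
  have h1 := horth i i0
  rw [if_neg hi, htriv, Matrix.mul_smul] at h1
  rcases smul_eq_zero.1 h1 with h2 | h2
  · exact absurd h2 (inv_ne_zero hn)
  · exact h2

/-- Class functions are linear combinations of the spherical functions. PROOF. M (b, a) = ψ (a \ b) is
invariant (`inv_of_class`), M * E i = c_i • E i, M = M * Σ E i = Σ c_i • E i; take the entry (z, e):
ψ z = Σ c_i E i (z, e) = Σ c_i (f_i / n) phi_i (z). -/
theorem class_span (h : IsLoop mul e) {ι : Type} [Fintype ι] [DecidableEq ι]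
    {E : ι → Matrix Q Q ℂ} {f : ι → ℕ} {i0 : ι} (hF : Fam mul E f i0)
    (ψ : Q → ℂ) (hψ : ∀ g ∈ inn mul, ∀ z, ψ (g z) = ψ z) :
    ∃ c : ι → ℂ, ∀ z, ψ z = ∑ i, c i * phi (E i) (f i) e z := by
  have hn : (Fintype.card Q : ℂ) ≠ 0 := by
    have : Nonempty Q := ⟨e⟩
    exact_mod_cast Fintype.card_ne_zero
  have hM := inv_of_class h ψ hψ
  set M : Matrix Q Q ℂ := fun b a => ψ (ld h a b) with hMdef
  choose c hc using fun i => (hF.sph i).scal M hM
  refine ⟨fun i => c i * ((f i : ℂ) / (Fintype.card Q : ℂ)), fun z => ?_⟩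
  have h1 : M = ∑ i, c i • E i := by
    calc M = M * ∑ i, E i := by rw [hF.sum_one, Matrix.mul_one]
      _ = ∑ i, M * E i := Finset.mul_sum _ _ _
      _ = _ := Finset.sum_congr rfl fun i _ => hc i
  have h2 : M z e = ψ z := by
    rw [hMdef]
    simp only [ld_e h]
  rw [← h2, h1, Matrix.sum_apply]
  refine Finset.sum_congr rfl fun i _ => ?_
  rw [Matrix.smul_apply, smul_eq_mul]
  unfold phi
  have hf : (f i : ℂ) ≠ 0 := by exact_mod_cast (hF.sph i).pos.ne'
  field_simp

end CAL
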