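import Pool.Agent.CAL.Cls
import Pool.Agent.CAL.Fam
import Pool.Agent.CAL.Arith

set_option autoImplicit false
set_option linter.unusedSectionVars false

/-!
Row CAL-Blk: the principal block contains a non-trivial spherical function.
-/

namespace CAL

open Matrix

variable {Q : Type} [Fintype Q] [DecidableEq Q] {mul : Q → Q → Q} {e : Q}

theorem blk_natInt (m : ℕ) : IsIntegral ℤ (m : ℂ) := by
  have := isIntegral_algebraMap (R := ℤ) (A := ℂ) (x := (m : ℤ))
  simpa using this

/-- The induction of `exists_block`. -/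
theorem blk_ind (h : IsLoop mul e) {ι : Type} [Fintype ι] [DecidableEq ι]
    {E : ι → Matrix Q Q ℂ} {f : ι → ℕ} {i0 : ι} (hF : Fam mul E f i0)
    (P : Ideal (integralClosure ℤ ℂ)) (hP : P.IsPrime) (x : ι → Q)
    (hx : ∀ i, i ≠ i0 → ¬ InP P ((osz mul (x i) : ℂ) * (1 - phi (E i) (f i) e (x i))))
    (s : Finset ι) (hs : i0 ∉ s) :
    ∃ Y : Matrix Q Q ℂ, ∃ w : integralClosure ℤ ℂ, (∀ a b, IsIntegral ℤ (Y a b)) ∧
      (∀ i ∈ s, Y * E i = 0) ∧ w ∉ P ∧ Y * ones Q = (w : ℂ) • ones Q := by
  induction s using Finset.induction_on with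
  | empty =>
    refine ⟨1, 1, fun a b => ?_, fun i hi => absurd hi (Finset.notMem_empty i), ?_, ?_⟩
    · rw [Matrix.one_apply]
      split_ifs
      · exact isIntegral_one
      · exact isIntegral_zero
    · intro h1
      exact hP.ne_top ((Ideal.eq_top_iff_one P).2 h1)
    · rw [Matrix.one_mul]
      exact (one_smul ℂ (ones Q)).symm
  | insert j s hj ih =>
    have hj0 : j ≠ i0 := fun hh => hs (hh ▸ Finset.mem_insert_self j s)
    obtain ⟨Y, w, hY, hYE, hw, hYo⟩ := ih (fun hh => hs (Finset.mem_insert_of_mem hh))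
    set c : ℂ := (osz mul (x j) : ℂ) * phi (E j) (f j) e (x j) with hc
    have hcint : IsIntegral ℤ c := phi_int h (hF.sph j) (x j)
    have hzint : IsIntegral ℤ ((osz mul (x j) : ℂ) * (1 - phi (E j) (f j) e (x j))) := by
      rw [mul_sub, mul_one]
      exact (blk_natInt _).sub hcint
    have hZ : ∀ a b, IsIntegral ℤ ((clm h (x j) - c • (1 : Matrix Q Q ℂ)) a b) := by
      intro a b
      rw [Matrix.sub_apply, Matrix.smul_apply, Matrix.one_apply, smul_eq_mul]
      refine IsIntegral.sub ?_ (hcint.mul ?_)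
      · unfold clm
        split_ifs
        · exact isIntegral_one
        · exact isIntegral_zero
      · split_ifs
        · exact isIntegral_one
        · exact isIntegral_zero
    refine ⟨Y * (clm h (x j) - c • (1 : Matrix Q Q ℂ)), w * ⟨_, hzint⟩, fun a b => ?_,
      fun i hi => ?_, fun hmem => ?_, ?_⟩
    · rw [Matrix.mul_apply]
      exact IsIntegral.sum _ fun k _ => (hY a k).mul (hZ k b)
    · have h1 : (clm h (x j) - c • (1 : Matrix Q Q ℂ)) * E i =
          ((osz mul (x j) : ℂ) * phi (E i) (f i) e (x j) - c) • E i := by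
        rw [Matrix.sub_mul, clm_mul h (hF.sph i), Matrix.smul_mul, Matrix.one_mul, sub_smul]
      rw [Matrix.mul_assoc, h1, Matrix.mul_smul]
      rcases Finset.mem_insert.1 hi with h2 | h2
      · subst h2
        rw [hc, sub_self, zero_smul]
      · rw [hYE i h2, smul_zero]
    · rcases hP.mem_or_mem hmem with h1 | h1
      · exact hw h1
      · exact hx j hj0 ⟨_, h1, rfl⟩
    · rw [Matrix.mul_assoc, Matrix.sub_mul, clm_ones, Matrix.smul_mul, Matrix.one_mul, ← sub_smul,
        Matrix.mul_smul, hYo, smul_smul]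
      congr 1
      rw [mul_comm]
      change (w : ℂ) * ((osz mul (x j) : ℂ) - c) =
        (w : ℂ) * ((osz mul (x j) : ℂ) * (1 - phi (E j) (f j) e (x j)))
      rw [hc]
      ring

/-- PROOF. Put n = |Q|, O = integralClosure ℤ ℂ. `osz x * (1 - phi_i x) = osz x - osz x * phi_i x` is an
algebraic integer for all i, x (`phi_int`). Suppose that for every i ≠ i0 there is x_i for which it is not
in P. Let Y = Π_{i ≠ i0} (clm h x_i - (osz x_i * phi_i x_i) • 1), a product of pairwise commuting invariant
matrices. The entries of Y are algebraic integers. Y * E i = 0 for i ≠ i0 (the factor of index i kills E i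
by `clm_mul`), so Y = Y * Σ E i = Y * E i0 = n⁻¹ • (Y * ones). By `clm_ones`, Y * ones = c • ones with
c = Π_{i ≠ i0} (osz x_i - osz x_i * phi_i x_i). So Y (e, e) = c / n, i.e. c = n * Y (e, e), an element of
n O inside p O inside P (p divides n); but P is prime and no factor of c is in P. Contradiction.
(Take the product over `Finset.univ.erase i0` in the commutative subalgebra of invariant matrices, or
as a `List` product / `Finset.noncommProd`, or do an induction over a Finset s not containing i0: there is an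
invariant matrix Y with algebraic integer entries, Y * E i = 0 for i in s, Y * ones = c • ones, c an
algebraic integer not in P. The induction is the easiest: multiply Y by the new factor.) -/
theorem exists_block (h : IsLoop mul e) {ι : Type} [Fintype ι] [DecidableEq ι]
    {E : ι → Matrix Q Q ℂ} {f : ι → ℕ} {i0 : ι} (hF : Fam mul E f i0)
    (P : Ideal (integralClosure ℤ ℂ)) (hP : P.IsPrime) (p : ℕ)
    (hpP : ((p : ℕ) : integralClosure ℤ ℂ) ∈ P) (hdvd : p ∣ Fintype.card Q) :
    ∃ i, i ≠ i0 ∧ ∀ x, InP P ((osz mul x : ℂ) * (1 - phi (E i) (f i) e x)) := by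
  by_contra hcon
  have hcon' : ∀ i, ∃ x, i ≠ i0 → ¬ InP P ((osz mul x : ℂ) * (1 - phi (E i) (f i) e x)) := by
    intro i
    by_cases hi : i = i0
    · exact ⟨e, fun hh => absurd hi hh⟩
    · by_contra h1
      apply hcon
      refine ⟨i, hi, fun x => ?_⟩
      by_contra h2
      exact h1 ⟨x, fun _ => h2⟩
  choose x hx using hcon'
  obtain ⟨Y, w, hY, hYE, hw, hYo⟩ := blk_ind h hF P hP x hx (Finset.univ.erase i0)
    (Finset.notMem_erase i0 _)
  have hn : (Fintype.card Q : ℂ) ≠ 0 := by
    have : Nonempty Q := ⟨e⟩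
    exact_mod_cast Fintype.card_ne_zero
  have h1 : Y = ((Fintype.card Q : ℂ))⁻¹ • ((w : ℂ) • ones Q) := by
    calc Y = Y * ∑ i, E i := by rw [hF.sum_one, Matrix.mul_one]
      _ = ∑ i, Y * E i := Finset.mul_sum _ _ _
      _ = Y * E i0 := by
        refine Finset.sum_eq_single i0 (fun i _ hi => ?_) (fun hh => absurd (Finset.mem_univ _) hh)
        exact hYE i (Finset.mem_erase.2 ⟨hi, Finset.mem_univ i⟩)
      _ = _ := by rw [hF.triv, Matrix.mul_smul, hYo]
  have h2 : (w : ℂ) = (Fintype.card Q : ℂ) * Y e e := by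
    have h3 := congrFun (congrFun h1 e) e
    rw [h3]
    simp only [Matrix.smul_apply, ones, smul_eq_mul, mul_one]
    rw [mul_inv_cancel_left₀ hn]
  apply hw
  obtain ⟨m, hm⟩ := hdvd
  have h4 : w = (p : integralClosure ℤ ℂ) * ((m : integralClosure ℤ ℂ) * ⟨Y e e, hY e e⟩) := by
    apply Subtype.ext
    rw [h2, hm]
    push_cast
    rw [mul_assoc]
  rw [h4]
  exact P.mul_mem_right _ hpP

end CAL
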