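import Pool.Agent.CAL.Sph

set_option autoImplicit false
set_option linter.unusedSectionVars false

/-!
Row CAL-Cls: class matrices.
-/

namespace CAL

open Matrix

variable {Q : Type} [Fintype Q] [DecidableEq Q] {mul : Q → Q → Q} {e : Q}

open Classical in
/-- The class matrix: `(a, b)`-entry 1 iff `a \ b` is in the orbit of `x` under the inner mapping group. -/
noncomputable def clm (h : IsLoop mul e) (x : Q) : Matrix Q Q ℂ :=
  fun a b => if ld h a b ∈ MulAction.orbit (inn mul) x then 1 else 0

/-- `inv_of_class` for the indicator function of the orbit, then transpose (`inv_transpose`). -/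
theorem inv_clm (h : IsLoop mul e) (x : Q) : Inv mul (clm h x) := by
  classical
  have h1 : Inv mul (fun b a => (fun z => if z ∈ MulAction.orbit (inn mul) x then (1 : ℂ) else 0)
      (ld h a b)) := by
    refine inv_of_class h (fun z => if z ∈ MulAction.orbit (inn mul) x then (1 : ℂ) else 0) ?_
    intro g hg z
    have h2 : g z ∈ MulAction.orbit (inn mul) x ↔ z ∈ MulAction.orbit (inn mul) x := by
      constructor
      · intro hz
        have h3 : z ∈ MulAction.orbit (inn mul) (g z) :=
          (mem_orbit_iff mul (g z) z).2 ⟨g⁻¹, (inn mul).inv_mem hg, inv_app g z⟩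
        rw [MulAction.orbit_eq_iff.2 hz] at h3
        exact h3
      · intro hz
        have h3 : g z ∈ MulAction.orbit (inn mul) z :=
          (mem_orbit_iff mul z (g z)).2 ⟨g, hg, rfl⟩
        rw [MulAction.orbit_eq_iff.2 hz] at h3
        exact h3
    simp only [h2]
  exact inv_transpose h1

/-- Row sums: `#{b : a \ b ∈ orbit} = osz`. -/
theorem clm_ones (h : IsLoop mul e) (x : Q) : clm h x * ones Q = (osz mul x : ℂ) • ones Q := by
  classical
  ext a b
  rw [Matrix.mul_apply, Matrix.smul_apply]
  unfold ones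
  simp only [mul_one, smul_eq_mul]
  unfold clm
  rw [← Equiv.sum_comp (Lp h a)]
  have h1 : ∀ z : Q, (if ld h a ((Lp h a) z) ∈ MulAction.orbit (inn mul) x then (1 : ℂ) else 0)
      = if z ∈ MulAction.orbit (inn mul) x then (1 : ℂ) else 0 := by
    intro z
    rw [Lp_apply, ld_mul]
  rw [Finset.sum_congr rfl fun z _ => h1 z, Finset.sum_boole]
  unfold osz
  rw [Set.ncard_eq_toFinset_card']
  congr 2
  ext z
  simp

/-- `clm x * E = c • E` for some `c` (`hE.scal`). Traces: `c f = trace (clm x * E)
= Σ_a Σ_b clm (a, b) E (b, a) = Σ_a Σ_b [a \ b ∈ orbit] (f/n) phi (a \ b) = f osz phi (x)`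
(`sph_apply`, `phi_inn`; for fixed `a` substitute `b = a z`). -/
theorem clm_mul (h : IsLoop mul e) {E : Matrix Q Q ℂ} {f : ℕ} (hE : Sph mul E f) (x : Q) :
    clm h x * E = ((osz mul x : ℂ) * phi E f e x) • E := by
  classical
  obtain ⟨c, hc⟩ := hE.scal (clm h x) (inv_clm h x)
  have hn : (Fintype.card Q : ℂ) ≠ 0 := by
    have : 0 < Fintype.card Q := Fintype.card_pos_iff.2 ⟨e⟩
    exact_mod_cast this.ne'
  have hf : (f : ℂ) ≠ 0 := by exact_mod_cast hE.pos.ne'
  have htr : (clm h x * E).trace = c * (f : ℂ) := by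
    rw [hc, Matrix.trace_smul, hE.tr, smul_eq_mul]
  have h2 : ∀ a : Q, (Matrix.diag (clm h x * E)) a
      = ((f : ℂ) / (Fintype.card Q : ℂ)) * ((osz mul x : ℂ) * phi E f e x) := by
    intro a
    rw [Matrix.diag_apply, Matrix.mul_apply, ← Equiv.sum_comp (Lp h a)]
    have h3 : ∀ z : Q, clm h x a ((Lp h a) z) * E ((Lp h a) z) a
        = ((f : ℂ) / (Fintype.card Q : ℂ)) *
          ((if z ∈ MulAction.orbit (inn mul) x then (1 : ℂ) else 0) * phi E f e x) := by
      intro z
      rw [sph_apply h hE a ((Lp h a) z)]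
      unfold clm
      rw [Lp_apply, ld_mul]
      by_cases hz : z ∈ MulAction.orbit (inn mul) x
      · rw [if_pos hz, one_mul, one_mul]
        obtain ⟨g, hg, hgx⟩ := (mem_orbit_iff mul x z).1 hz
        rw [← hgx, phi_inn h hE hg x]
      · rw [if_neg hz, zero_mul, zero_mul, mul_zero]
    rw [Finset.sum_congr rfl fun z _ => h3 z, ← Finset.mul_sum, ← Finset.sum_mul, Finset.sum_boole]
    congr 3
    unfold osz
    rw [Set.ncard_eq_toFinset_card']
    congr 2
    ext z
    simp
  rw [Matrix.trace, Finset.sum_congr rfl fun a _ => h2 a, Finset.sum_const, Finset.card_univ,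
    nsmul_eq_mul] at htr
  have h4 : c = (osz mul x : ℂ) * phi E f e x := by
    have h5 : (f : ℂ) * ((osz mul x : ℂ) * phi E f e x) = (f : ℂ) * c := by
      rw [mul_comm (f : ℂ) c, ← htr]
      field_simp
    exact (mul_left_cancel₀ hf h5).symm
  rw [hc, h4]

/-- `osz phi (x)` is an algebraic integer: `clm x` is the image of an integer matrix `A`, and a scalar `c`
with `clm x * E = c • E`, `E ≠ 0` (its trace is not 0) is a root of the characteristic polynomial of `A`
(Cayley-Hamilton: `aeval (clm x) (charpoly A) = 0`, so `0 = aeval (clm x) (charpoly) * E = aeval c (charpoly) • E`). -/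
theorem phi_int (h : IsLoop mul e) {E : Matrix Q Q ℂ} {f : ℕ} (hE : Sph mul E f) (x : Q) :
    IsIntegral ℤ ((osz mul x : ℂ) * phi E f e x) := by
  classical
  set c : ℂ := (osz mul x : ℂ) * phi E f e x with hcdef
  have hc : clm h x * E = c • E := clm_mul h hE x
  have hE0 : E ≠ 0 := by
    intro h0
    have := hE.tr
    rw [h0, Matrix.trace_zero] at this
    have hf : (f : ℂ) ≠ 0 := by exact_mod_cast hE.pos.ne'
    exact hf this.symm
  let A : Matrix Q Q ℤ := fun a b => if ld h a b ∈ MulAction.orbit (inn mul) x then 1 else 0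
  have hA : A.map (Int.castRingHom ℂ) = clm h x := by
    ext a b
    rw [Matrix.map_apply]
    simp only [A, clm]
    split_ifs
    · simp
    · simp
  have hpow : ∀ k : ℕ, clm h x ^ k * E = c ^ k • E := by
    intro k
    induction k with
    | zero => rw [pow_zero, pow_zero, one_mul, one_smul]
    | succ k ih =>
      rw [pow_succ, Matrix.mul_assoc, hc, Matrix.mul_smul, ih, smul_smul, pow_succ, mul_comm]
  have hpoly : ∀ p : Polynomial ℂ, (Polynomial.aeval (clm h x) p) * E = (Polynomial.aeval c p) • E := by
    intro p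
    induction p using Polynomial.induction_on' with
    | add p q hp hq => rw [map_add, map_add, add_mul, hp, hq, add_smul]
    | monomial k a =>
      rw [Polynomial.aeval_monomial, Polynomial.aeval_monomial, Matrix.mul_assoc, hpow,
        Algebra.algebraMap_self_apply]
      rw [Matrix.mul_smul, Algebra.algebraMap_eq_smul_one, Matrix.smul_mul, Matrix.one_mul,
        smul_smul, mul_comm]
  have hchar : Polynomial.aeval (clm h x) (A.charpoly.map (Int.castRingHom ℂ)) = 0 := by
    rw [← Matrix.charpoly_map, hA]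
    exact Matrix.aeval_self_charpoly _
  have h0 := hpoly (A.charpoly.map (Int.castRingHom ℂ))
  rw [hchar, zero_mul] at h0
  have h1 : Polynomial.aeval c (A.charpoly.map (Int.castRingHom ℂ)) = 0 := by
    by_contra hne
    exact hE0 ((smul_eq_zero.1 h0.symm).resolve_left hne)
  refine ⟨A.charpoly, Matrix.charpoly_monic A, ?_⟩
  rw [Polynomial.aeval_def, Polynomial.eval₂_map] at h1
  exact h1

end CAL
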