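import Mathlib

set_option autoImplicit false

/-!
Row CAL-Cnt: the counting argument.
-/

namespace CAL

/-- PROOF. Let K = {x | φ x = 1}, n = |Q|. Σ |1 - φ x|^2 = n - 2 Re Σ φ + Σ |φ|^2 = n + n/f =: T.
(1) Cauchy-Schwarz: Σ_{x ∉ K} φ x = - |K|, so |K|^2 ≤ (n - |K|) Σ_{x ∉ K} |φ x|^2 = (n - |K|) (n/f - |K|), which
gives |K| (f + 1) ≤ n.
(2) For a = s x or a = f and x ∉ K: #U p^2 / a^2 ≤ Σ_{k ∈ U} |1 - φ (w k x)|^2. Sum over x ∉ K; for every k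
the map w k is injective, so Σ_{x ∉ K} |1 - φ (w k x)|^2 ≤ T. Dividing by #U > 0:
p^2 Σ_{x ∉ K} 1/(s x)^2 ≤ T and p^2 (n - |K|) / f^2 ≤ T = n (f+1)/f. By (1) n - |K| ≥ n f/(f+1), so
p^2 ≤ (f+1)^2, p ≤ f + 1 (n > 0).
(3) p |K| ≤ (f+1) |K| ≤ n, and T = n (1 + 1/f) ≤ n p/(p-1), so p (p-1) Σ_{x ∉ K} 1/(s x)^2 ≤ n. -/
theorem count_core {Q : Type} [Fintype Q] [DecidableEq Q] [Nonempty Q] (p : ℕ) (hp : 2 ≤ p)
    (φ : Q → ℂ) (s : Q → ℕ) (hs : ∀ x, 0 < s x) (f : ℕ) (hf : 0 < f) (U : Finset ℕ)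
    (hU : U.Nonempty) (w : ℕ → Q → Q) (hw : ∀ k ∈ U, Function.Injective (w k))
    (h0 : ∑ x, φ x = 0) (h2 : ∑ x, ‖φ x‖ ^ 2 = (Fintype.card Q : ℝ) / (f : ℝ))
    (hb : ∀ x, φ x ≠ 1 → ∀ a ∈ ({s x, f} : Set ℕ),
      (U.card : ℝ) * (p : ℝ) ^ 2 / (a : ℝ) ^ 2 ≤ ∑ k ∈ U, ‖1 - φ (w k x)‖ ^ 2) :
    ∃ K : Finset Q, p * K.card ≤ Fintype.card Q ∧
      (p : ℝ) * ((p : ℝ) - 1) * ∑ x ∈ Kᶜ, 1 / (s x : ℝ) ^ 2 ≤ (Fintype.card Q : ℝ) := by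
  classical
  set n : ℝ := (Fintype.card Q : ℝ) with hn
  have hn0 : 0 < n := by
    rw [hn]; exact_mod_cast Fintype.card_pos
  have hf' : (0 : ℝ) < (f : ℝ) := by exact_mod_cast hf
  have hp' : (2 : ℝ) ≤ (p : ℝ) := by exact_mod_cast hp
  set K : Finset Q := Finset.univ.filter (fun x => φ x = 1) with hK
  have hmem : ∀ x, x ∈ K ↔ φ x = 1 := fun x => by rw [hK, Finset.mem_filter]; simp
  have hmemc : ∀ x, x ∈ Kᶜ ↔ φ x ≠ 1 := fun x => by rw [Finset.mem_compl, hmem]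
  have hcard : ((Kᶜ).card : ℝ) = n - (K.card : ℝ) := by
    rw [Finset.card_compl, Nat.cast_sub (Finset.card_le_univ K)]
  -- the total
  have hT : ∑ x, ‖1 - φ x‖ ^ 2 = n + n / (f : ℝ) := by
    have h1 : ∀ x, ‖1 - φ x‖ ^ 2 = 1 - 2 * (φ x).re + ‖φ x‖ ^ 2 := by
      intro x
      rw [← Complex.normSq_eq_norm_sq, ← Complex.normSq_eq_norm_sq, Complex.normSq_apply,
        Complex.normSq_apply, Complex.sub_re, Complex.sub_im, Complex.one_re, Complex.one_im]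
      ring
    rw [Finset.sum_congr rfl fun x _ => h1 x, Finset.sum_add_distrib, Finset.sum_sub_distrib, h2,
      ← Finset.mul_sum, ← Complex.re_sum, h0]
    simp [hn]
  -- step (1)
  have hKle : (K.card : ℝ) * ((f : ℝ) + 1) ≤ n := by
    have hsplit : ∑ x ∈ K, φ x + ∑ x ∈ Kᶜ, φ x = 0 := by
      rw [Finset.sum_add_sum_compl, h0]
    have hK1 : ∑ x ∈ K, φ x = (K.card : ℂ) := by
      rw [Finset.sum_congr rfl (g := fun _ => (1 : ℂ)) fun x hx => (hmem x).1 hx]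
      simp
    have hKc : ∑ x ∈ Kᶜ, φ x = -(K.card : ℂ) := by
      rw [hK1] at hsplit
      linear_combination hsplit
    have hnorm : (K.card : ℝ) ≤ ∑ x ∈ Kᶜ, ‖φ x‖ := by
      have h3 := norm_sum_le (Kᶜ) φ
      rw [hKc, norm_neg, Complex.norm_natCast] at h3
      exact h3
    have hsplit2 : ∑ x ∈ K, ‖φ x‖ ^ 2 + ∑ x ∈ Kᶜ, ‖φ x‖ ^ 2 = n / (f : ℝ) := by
      rw [Finset.sum_add_sum_compl, h2]
    have hK2 : ∑ x ∈ K, ‖φ x‖ ^ 2 = (K.card : ℝ) := by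
      rw [Finset.sum_congr rfl (g := fun _ => (1 : ℝ)) fun x hx => by rw [(hmem x).1 hx]; simp]
      simp
    have hcs : (∑ x ∈ Kᶜ, ‖φ x‖) ^ 2 ≤ ((Kᶜ).card : ℝ) * ∑ x ∈ Kᶜ, ‖φ x‖ ^ 2 :=
      sq_sum_le_card_mul_sum_sq
    have hsq : (K.card : ℝ) ^ 2 ≤ (n - (K.card : ℝ)) * (n / (f : ℝ) - (K.card : ℝ)) := by
      have h4 : (K.card : ℝ) ^ 2 ≤ (∑ x ∈ Kᶜ, ‖φ x‖) ^ 2 :=
        pow_le_pow_left₀ (Nat.cast_nonneg _) hnorm 2
      have h5 : ∑ x ∈ Kᶜ, ‖φ x‖ ^ 2 = n / (f : ℝ) - (K.card : ℝ) := by linarith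
      rw [hcard, h5] at hcs
      linarith
    have h6 : (K.card : ℝ) * n * (1 + 1 / (f : ℝ)) ≤ n * (n / (f : ℝ)) := by
      have : (n - (K.card : ℝ)) * (n / (f : ℝ) - (K.card : ℝ)) =
        n * (n / (f : ℝ)) - (K.card : ℝ) * n * (1 + 1 / (f : ℝ)) + (K.card : ℝ) ^ 2 := by ring
      linarith
    have h7 : (K.card : ℝ) * n * (1 + 1 / (f : ℝ)) = n * ((K.card : ℝ) * ((f : ℝ) + 1) / (f : ℝ)) := by
      field_simp
    rw [h7] at h6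
    have h8 := le_of_mul_le_mul_left h6 hn0
    rwa [div_le_div_iff_of_pos_right hf'] at h8
  have hU0 : (0 : ℝ) < (U.card : ℝ) := by exact_mod_cast hU.card_pos
  -- step (2)
  have hstep : ∀ a : Q → ℕ, (∀ x, a x = s x ∨ a x = f) →
      (p : ℝ) ^ 2 * ∑ x ∈ Kᶜ, 1 / (a x : ℝ) ^ 2 ≤ n + n / (f : ℝ) := by
    intro a ha
    have h1 : ∑ x ∈ Kᶜ, (U.card : ℝ) * (p : ℝ) ^ 2 / (a x : ℝ) ^ 2 ≤
        ∑ x ∈ Kᶜ, ∑ k ∈ U, ‖1 - φ (w k x)‖ ^ 2 := by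
      refine Finset.sum_le_sum fun x hx => hb x ((hmemc x).1 hx) (a x) ?_
      rcases ha x with h | h
      · rw [h]; exact Or.inl rfl
      · rw [h]; exact Or.inr rfl
    rw [Finset.sum_comm] at h1
    have h3 : ∀ k ∈ U, ∑ x ∈ Kᶜ, ‖1 - φ (w k x)‖ ^ 2 ≤ n + n / (f : ℝ) := by
      intro k hk
      rw [← hT]
      calc ∑ x ∈ Kᶜ, ‖1 - φ (w k x)‖ ^ 2 ≤ ∑ x, ‖1 - φ (w k x)‖ ^ 2 :=
            Finset.sum_le_sum_of_subset_of_nonneg (Finset.subset_univ _) (fun _ _ _ => sq_nonneg _)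
        _ = ∑ x, ‖1 - φ x‖ ^ 2 :=
            (Finite.injective_iff_bijective.1 (hw k hk)).sum_comp (fun y => ‖1 - φ y‖ ^ 2)
    have h4 := h1.trans (Finset.sum_le_sum h3)
    rw [Finset.sum_const, nsmul_eq_mul] at h4
    have h5 : ∑ x ∈ Kᶜ, (U.card : ℝ) * (p : ℝ) ^ 2 / (a x : ℝ) ^ 2 =
        (U.card : ℝ) * ((p : ℝ) ^ 2 * ∑ x ∈ Kᶜ, 1 / (a x : ℝ) ^ 2) := by
      rw [Finset.mul_sum, Finset.mul_sum]
      exact Finset.sum_congr rfl fun x _ => by ring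
    rw [h5] at h4
    exact le_of_mul_le_mul_left h4 hU0
  -- `p ≤ f + 1`
  have hpf : (p : ℝ) ≤ (f : ℝ) + 1 := by
    have h1 := hstep (fun _ => f) (fun x => Or.inr rfl)
    rw [Finset.sum_const, nsmul_eq_mul, hcard] at h1
    have h3 : n * (f : ℝ) / ((f : ℝ) + 1) ≤ n - (K.card : ℝ) := by
      have h4 : (K.card : ℝ) ≤ n / ((f : ℝ) + 1) := by
        rw [le_div_iff₀ (by linarith)]
        exact hKle
      have h5 : n * (f : ℝ) / ((f : ℝ) + 1) = n - n / ((f : ℝ) + 1) := by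
        field_simp
        ring
      rw [h5]
      linarith
    have h4 : (p : ℝ) ^ 2 * (n * (f : ℝ) / ((f : ℝ) + 1) * (1 / (f : ℝ) ^ 2)) ≤ n + n / (f : ℝ) := by
      refine le_trans (mul_le_mul_of_nonneg_left (mul_le_mul_of_nonneg_right h3 (by positivity)) (by positivity)) h1
    have h5 : (p : ℝ) ^ 2 ≤ ((f : ℝ) + 1) ^ 2 := by
      have e1 : (p : ℝ) ^ 2 * (n * (f : ℝ) / ((f : ℝ) + 1) * (1 / (f : ℝ) ^ 2)) =
          (n / ((f : ℝ) * ((f : ℝ) + 1))) * (p : ℝ) ^ 2 := by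
        field_simp
      have e2 : n + n / (f : ℝ) = (n / ((f : ℝ) * ((f : ℝ) + 1))) * ((f : ℝ) + 1) ^ 2 := by
        field_simp
      rw [e1, e2] at h4
      exact le_of_mul_le_mul_left h4 (by positivity)
    exact (sq_le_sq₀ (by positivity) (by positivity)).1 h5
  refine ⟨K, ?_, ?_⟩
  · have h1 : (p : ℝ) * (K.card : ℝ) ≤ n := by
      refine le_trans ?_ hKle
      rw [mul_comm]
      exact mul_le_mul_of_nonneg_left hpf (Nat.cast_nonneg _)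
    rw [hn] at h1
    exact_mod_cast h1
  · have h1 := hstep s (fun x => Or.inl rfl)
    set S := ∑ x ∈ Kᶜ, 1 / (s x : ℝ) ^ 2 with hS
    have hp1 : (0 : ℝ) < (p : ℝ) - 1 := by linarith
    have h3 : n + n / (f : ℝ) ≤ n * ((p : ℝ) / ((p : ℝ) - 1)) := by
      have h4 : 1 / (f : ℝ) ≤ 1 / ((p : ℝ) - 1) :=
        one_div_le_one_div_of_le hp1 (by linarith)
      have h5 : n + n / (f : ℝ) = n * (1 + 1 / (f : ℝ)) := by ring
      have h6 : (p : ℝ) / ((p : ℝ) - 1) = 1 + 1 / ((p : ℝ) - 1) := by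
        field_simp
        ring
      rw [h5, h6]
      exact mul_le_mul_of_nonneg_left (by linarith) hn0.le
    have h4 := h1.trans h3
    have h5 : (p : ℝ) * (((p : ℝ) - 1) * S) ≤ n := by
      have h6 : (p : ℝ) * ((p : ℝ) * S) ≤ (p : ℝ) * (n / ((p : ℝ) - 1)) := by
        calc (p : ℝ) * ((p : ℝ) * S) = (p : ℝ) ^ 2 * S := by ring
          _ ≤ n * ((p : ℝ) / ((p : ℝ) - 1)) := h4
          _ = (p : ℝ) * (n / ((p : ℝ) - 1)) := by ring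
      have h7 := le_of_mul_le_mul_left h6 (by linarith)
      rw [le_div_iff₀ hp1] at h7
      linarith
    linarith

end CAL
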