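import Mathlib

set_option autoImplicit false

/-!
Row CAL-Cnt2: two elementary consequences of the counting inequality.
-/

namespace CAL

/-- The average bound: PROOF. Let a = |K|/n ≤ 1/p. Σ_x 1/s x ≤ |K| + Σ_{x ∉ K} 1/s x ≤
|K| + sqrt ((n - |K|) n / (p (p-1))) (Cauchy-Schwarz), and for b = 1/p - a ≥ 0:
sqrt ((1 - 1/p + b)/(p (p-1))) = (1/p) sqrt (1 + b p/(p-1)) ≤ (1/p) (1 + b p/(2 (p-1))) ≤ 1/p + b.
(Without square roots: with A = Σ_{x ∉ K} 1/s x, c = 2/p - |K|/n ≥ 1/p: A^2 p (p-1) ≤ (n - |K|) n and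
(n - |K|) n ≤ p (p-1) (c n)^2, because (1 - 2/p + c) ≤ p (p-1) c^2 for c ≥ 1/p.) -/
theorem count_avg {Q : Type} [Fintype Q] [DecidableEq Q] (p : ℕ) (hp : 2 ≤ p)
    (s : Q → ℕ) (hs : ∀ x, 0 < s x) (K : Finset Q) (hK : p * K.card ≤ Fintype.card Q)
    (hsum : (p : ℝ) * ((p : ℝ) - 1) * ∑ x ∈ Kᶜ, 1 / (s x : ℝ) ^ 2 ≤ (Fintype.card Q : ℝ)) :
    (p : ℝ) * ∑ x, 1 / (s x : ℝ) ≤ 2 * (Fintype.card Q : ℝ) := by
  classical
  have hP : (2 : ℝ) ≤ (p : ℝ) := by exact_mod_cast hp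
  have hKr : (p : ℝ) * (K.card : ℝ) ≤ (Fintype.card Q : ℝ) := by exact_mod_cast hK
  have hkc : (K.card : ℝ) + ((Kᶜ).card : ℝ) = (Fintype.card Q : ℝ) := by
    have := K.card_add_card_compl
    exact_mod_cast this
  have hsplit : ∑ x, 1 / (s x : ℝ) = ∑ x ∈ K, 1 / (s x : ℝ) + ∑ x ∈ Kᶜ, 1 / (s x : ℝ) :=
    (Finset.sum_add_sum_compl K _).symm
  have hK1 : ∑ x ∈ K, 1 / (s x : ℝ) ≤ (K.card : ℝ) := by
    calc ∑ x ∈ K, 1 / (s x : ℝ) ≤ ∑ x ∈ K, (1 : ℝ) := by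
          refine Finset.sum_le_sum fun x _ => ?_
          have h1 : (1 : ℝ) ≤ (s x : ℝ) := by exact_mod_cast hs x
          rw [div_le_one (by linarith)]
          exact h1
      _ = (K.card : ℝ) := by simp
  set A : ℝ := ∑ x ∈ Kᶜ, 1 / (s x : ℝ) with hA
  set B : ℝ := ∑ x ∈ Kᶜ, 1 / (s x : ℝ) ^ 2 with hB
  set N : ℝ := (Fintype.card Q : ℝ) with hN
  set k : ℝ := (K.card : ℝ) with hk
  set m : ℝ := ((Kᶜ).card : ℝ) with hm
  have hcs : A ^ 2 ≤ m * B := by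
    have h := sq_sum_le_card_mul_sum_sq (s := Kᶜ) (f := fun x => 1 / (s x : ℝ))
    have e : ∑ x ∈ Kᶜ, (1 / (s x : ℝ)) ^ 2 = B := by
      rw [hB]
      exact Finset.sum_congr rfl fun x _ => by rw [div_pow, one_pow]
    rw [e] at h
    exact h
  have hA0 : 0 ≤ A := Finset.sum_nonneg fun x _ => by positivity
  have hm0 : 0 ≤ m := by positivity
  have hN0 : 0 ≤ N := by positivity
  have hk0 : 0 ≤ k := by positivity
  rw [hsplit]
  -- `T = 2 N - p k ≥ N`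
  set T : ℝ := 2 * N - (p : ℝ) * k with hT
  have hTN : N ≤ T := by rw [hT]; linarith
  have h1 : ((p : ℝ) * A) ^ 2 * ((p : ℝ) - 1) ≤ (p : ℝ) * m * N := by
    have e1 : ((p : ℝ) * A) ^ 2 * ((p : ℝ) - 1) = (p : ℝ) * ((p : ℝ) * ((p : ℝ) - 1)) * A ^ 2 := by ring
    rw [e1]
    have e2 : (p : ℝ) * ((p : ℝ) * ((p : ℝ) - 1)) * A ^ 2 ≤ (p : ℝ) * ((p : ℝ) * ((p : ℝ) - 1)) * (m * B) := by
      have : 0 ≤ (p : ℝ) * ((p : ℝ) * ((p : ℝ) - 1)) := by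
        have : 0 ≤ (p : ℝ) - 1 := by linarith
        positivity
      exact mul_le_mul_of_nonneg_left hcs this
    refine e2.trans ?_
    have e3 : (p : ℝ) * ((p : ℝ) * ((p : ℝ) - 1)) * (m * B) = (p : ℝ) * m * ((p : ℝ) * ((p : ℝ) - 1) * B) := by ring
    rw [e3]
    exact mul_le_mul_of_nonneg_left hsum (by positivity)
  have h2 : (p : ℝ) * m * N = ((p : ℝ) * N - 2 * N + T) * N := by
    have : m = N - k := by linarith
    rw [this, hT]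
    ring
  have h3 : ((p : ℝ) * N - 2 * N + T) * N ≤ ((p : ℝ) - 1) * T ^ 2 := by
    have e : ((p : ℝ) - 1) * T ^ 2 - ((p : ℝ) * N - 2 * N + T) * N =
        (T - N) * (((p : ℝ) - 1) * T + ((p : ℝ) - 2) * N) := by ring
    have : 0 ≤ (T - N) * (((p : ℝ) - 1) * T + ((p : ℝ) - 2) * N) := by
      have a1 : 0 ≤ T - N := by linarith
      have a2 : 0 ≤ ((p : ℝ) - 1) * T := mul_nonneg (by linarith) (by linarith)
      have a3 : 0 ≤ ((p : ℝ) - 2) * N := mul_nonneg (by linarith) hN0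
      exact mul_nonneg a1 (by linarith)
    linarith
  have h4 : ((p : ℝ) * A) ^ 2 ≤ T ^ 2 := by
    have h5 : ((p : ℝ) * A) ^ 2 * ((p : ℝ) - 1) ≤ T ^ 2 * ((p : ℝ) - 1) := by
      rw [h2] at h1
      linarith
    exact le_of_mul_le_mul_right h5 (by linarith)
  have h5 : (p : ℝ) * A ≤ T := by
    have h6 : 0 ≤ T := by linarith
    exact (abs_le_of_sq_le_sq' h4 h6).2
  have h6 : (p : ℝ) * (∑ x ∈ K, 1 / (s x : ℝ)) ≤ (p : ℝ) * k := mul_le_mul_of_nonneg_left hK1 (by linarith)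
  rw [mul_add]
  rw [hT] at h5
  linarith

/-- The maximum bound: if all `s x ≤ p - 2`: p (p-1) (n - n/p) / (p-2)^2 ≤ n, (p-1)^2 ≤ (p-2)^2: contradiction.
(`s x + 2 ≤ p` and `0 < s x` give `3 ≤ p`.) -/
theorem count_max {Q : Type} [Fintype Q] [DecidableEq Q] [Nonempty Q] (p : ℕ)
    (s : Q → ℕ) (hs : ∀ x, 0 < s x) (hsp : ∀ x, s x + 2 ≤ p)
    (K : Finset Q) (hK : p * K.card ≤ Fintype.card Q)
    (hsum : (p : ℝ) * ((p : ℝ) - 1) * ∑ x ∈ Kᶜ, 1 / (s x : ℝ) ^ 2 ≤ (Fintype.card Q : ℝ)) :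
    False := by
  classical
  obtain ⟨x0⟩ := (inferInstance : Nonempty Q)
  have hp3 : 3 ≤ p := by
    have h1 := hs x0
    have h2 := hsp x0
    omega
  have hP : (3 : ℝ) ≤ (p : ℝ) := by exact_mod_cast hp3
  have hKr : (p : ℝ) * (K.card : ℝ) ≤ (Fintype.card Q : ℝ) := by exact_mod_cast hK
  have hkc : (K.card : ℝ) + ((Kᶜ).card : ℝ) = (Fintype.card Q : ℝ) := by
    have := K.card_add_card_compl
    exact_mod_cast this
  have hN0 : 0 < (Fintype.card Q : ℝ) := by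
    have : 0 < Fintype.card Q := Fintype.card_pos
    exact_mod_cast this
  have hP2 : 0 < (p : ℝ) - 2 := by linarith
  have hB : ((Kᶜ).card : ℝ) * (1 / ((p : ℝ) - 2) ^ 2) ≤ ∑ x ∈ Kᶜ, 1 / (s x : ℝ) ^ 2 := by
    rw [← nsmul_eq_mul]
    refine Finset.card_nsmul_le_sum _ _ _ fun x _ => ?_
    have h1 : (0 : ℝ) < (s x : ℝ) := by exact_mod_cast hs x
    have h2 : (s x : ℝ) ≤ (p : ℝ) - 2 := by
      have : ((s x + 2 : ℕ) : ℝ) ≤ (p : ℝ) := by exact_mod_cast hsp x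
      push_cast at this
      linarith
    exact one_div_le_one_div_of_le (by positivity) (by gcongr)
  set N : ℝ := (Fintype.card Q : ℝ) with hN
  set k : ℝ := (K.card : ℝ) with hk
  set m : ℝ := ((Kᶜ).card : ℝ) with hm
  have h1 : (p : ℝ) * ((p : ℝ) - 1) * (m * (1 / ((p : ℝ) - 2) ^ 2)) ≤ N := by
    refine le_trans ?_ hsum
    exact mul_le_mul_of_nonneg_left hB (by
      have : 0 ≤ (p : ℝ) - 1 := by linarith
      positivity)
  have h2 : (p : ℝ) * ((p : ℝ) - 1) * m ≤ N * ((p : ℝ) - 2) ^ 2 := by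
    have h3 : 0 < ((p : ℝ) - 2) ^ 2 := by positivity
    have h4 : (p : ℝ) * ((p : ℝ) - 1) * (m * (1 / ((p : ℝ) - 2) ^ 2)) =
        (p : ℝ) * ((p : ℝ) - 1) * m / ((p : ℝ) - 2) ^ 2 := by
      field_simp
    rw [h4, div_le_iff₀ h3] at h1
    exact h1
  have h3 : ((p : ℝ) - 1) * N ≤ (p : ℝ) * m := by
    have : m = N - k := by linarith
    rw [this]
    linarith
  have h4 : ((p : ℝ) - 1) * (((p : ℝ) - 1) * N) ≤ ((p : ℝ) - 1) * ((p : ℝ) * m) :=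
    mul_le_mul_of_nonneg_left h3 (by linarith)
  have h5 : ((p : ℝ) - 1) ^ 2 * N ≤ ((p : ℝ) - 2) ^ 2 * N := by
    calc ((p : ℝ) - 1) ^ 2 * N = ((p : ℝ) - 1) * (((p : ℝ) - 1) * N) := by ring
      _ ≤ ((p : ℝ) - 1) * ((p : ℝ) * m) := h4
      _ = (p : ℝ) * ((p : ℝ) - 1) * m := by ring
      _ ≤ N * ((p : ℝ) - 2) ^ 2 := h2
      _ = ((p : ℝ) - 2) ^ 2 * N := by ring
  have h6 : ((p : ℝ) - 1) ^ 2 ≤ ((p : ℝ) - 2) ^ 2 := le_of_mul_le_mul_right h5 hN0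
  nlinarith

end CAL
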