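import Pool.Agent.CAL.GalA

set_option autoImplicit false
set_option linter.unusedSectionVars false

/-!
Row CAL-GalB: `phi_i (x^k)` is the Galois conjugate of `phi_i (x)`.
-/

namespace CAL

open Matrix

variable {Q : Type} [Fintype Q] [DecidableEq Q] {mul : Q → Q → Q} {e : Q}

theorem galb_pw_pw (_h : IsLoop mul e) (hpa : PowAssoc mul e) (x : Q) (m n : ℕ) :
    pw mul e (pw mul e x m) n = pw mul e x (m * n) := by
  induction n with
  | zero => rw [Nat.mul_zero, pw_zero, pw_zero]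
  | succ n ih => rw [pw_succ, ih, hpa, Nat.mul_succ]

theorem galb_inv (k N : ℕ) (hN : 0 < N) (hk : k.Coprime N) : ∃ k' : ℕ, k * k' ≡ 1 [MOD N] := by
  have : NeZero N := ⟨hN.ne'⟩
  refine ⟨((k : ZMod N)⁻¹).val, ?_⟩
  rw [← ZMod.natCast_eq_natCast_iff]
  push_cast
  rw [ZMod.natCast_zmod_val]
  exact ZMod.coe_mul_inv_eq_one k hk

theorem galb_root (h : IsLoop mul e) (hpa : PowAssoc mul e) (N : ℕ) (hR : ∀ x, Rp h x ^ N = 1)
    (k k' : ℕ) (hkk : k * k' ≡ 1 [MOD N]) (x : Q) : pw mul e (pw mul e x k) k' = x := by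
  rw [galb_pw_pw h hpa, ← Rp_pow_e h]
  have h1 : Rp h x ^ (k * k') = Rp h x ^ 1 := by
    rw [pow_eq_pow_iff_modEq]
    exact hkk.of_dvd (orderOf_dvd_of_pow_eq_one (hR x))
  rw [h1, pow_one, Rp_apply, h.one_mul]

/-- The displacement of every point under `R_x^k` is in the orbit of `x^k`. PROOF. Choose k' with
k k' = 1 mod N. By `class_span` and `tk_tk` every class function ψ satisfies
(1/n) Σ_b g (b \ R_y^k'(b)) = ψ y, where g z = (1/n) Σ_c ψ (c \ R_z^k(c)). Take for ψ the indicator function of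
the orbit D of x^k. 0 ≤ g ≤ 1. For y = x^k: the average of g over the points b \ R_y^k'(b) is 1, so g = 1 at
all of them; b = e gives the point y^k' = (x^k)^k' = x^(k k') = x (power associativity and R_x^N = 1).
So g x = 1, which says that c \ R_x^k(c) is in D for all c. -/
theorem disp_class (h : IsLoop mul e) (hpa : PowAssoc mul e)
    (N : ℕ) (hN : 0 < N) (hR : ∀ x, Rp h x ^ N = 1) (k : ℕ) (hk : k.Coprime N) (x c : Q) :
    ld h c ((Rp h x ^ k) c) ∈ MulAction.orbit (inn mul) (pw mul e x k) := by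
  classical
  obtain ⟨k', hkk⟩ := galb_inv k N hN hk
  have hζ := Complex.isPrimitiveRoot_exp N hN.ne'
  set ζ := Complex.exp (2 * Real.pi * Complex.I / N) with hζdef
  obtain ⟨ι, i1, i2, E, f, i0, hF⟩ := exists_fam h
  set y : Q := pw mul e x k with hy
  let r : Q → ℝ := fun z => if z ∈ MulAction.orbit (inn mul) y then 1 else 0
  have hr1 : ∀ z, r z ≤ 1 := fun z => by
    show (if z ∈ MulAction.orbit (inn mul) y then (1 : ℝ) else 0) ≤ 1
    split_ifs <;> norm_num
  have hψ : ∀ g ∈ inn mul, ∀ z, ((r (g z) : ℝ) : ℂ) = ((r z : ℝ) : ℂ) := by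
    intro g hg z
    have h1 : g z ∈ MulAction.orbit (inn mul) y ↔ z ∈ MulAction.orbit (inn mul) y := by
      rw [mem_orbit_iff, mem_orbit_iff]
      constructor
      · rintro ⟨g', hg', hgz⟩
        refine ⟨g⁻¹ * g', (inn mul).mul_mem ((inn mul).inv_mem hg) hg', ?_⟩
        rw [Equiv.Perm.mul_apply, hgz, inv_app]
      · rintro ⟨g', hg', hgz⟩
        refine ⟨g * g', (inn mul).mul_mem hg hg', ?_⟩
        rw [Equiv.Perm.mul_apply, hgz]
    show (((if g z ∈ MulAction.orbit (inn mul) y then (1 : ℝ) else 0) : ℝ) : ℂ) =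
      (((if z ∈ MulAction.orbit (inn mul) y then (1 : ℝ) else 0) : ℝ) : ℂ)
    rw [if_congr h1 rfl rfl]
  obtain ⟨cc, hcc⟩ := class_span h hF (fun z => ((r z : ℝ) : ℂ)) hψ
  -- the average
  have havg : ((Fintype.card Q : ℂ))⁻¹ * ∑ b, (((Fintype.card Q : ℂ))⁻¹ *
      ∑ c, ((r (ld h c ((Rp h (ld h b ((Rp h y ^ k') b)) ^ k) c)) : ℝ) : ℂ)) = ((r y : ℝ) : ℂ) := by
    have h1 : ∀ z, ((r z : ℝ) : ℂ) = ∑ i, cc i * phi (E i) (f i) e z := hcc
    rw [h1 y]
    have h2 : ∀ i, cc i * phi (E i) (f i) e y = cc i * (((Fintype.card Q : ℂ))⁻¹ * ∑ b, (((Fintype.card Q : ℂ))⁻¹ *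
      ∑ c, phi (E i) (f i) e (ld h c ((Rp h (ld h b ((Rp h y ^ k') b)) ^ k) c)))) := fun i => by
      rw [tk_tk h (hF.sph i) N hN hR ζ hζ k k' hk hkk y]
    rw [Finset.sum_congr rfl fun i _ => h2 i]
    simp only [h1, Finset.mul_sum]
    symm
    refine (Finset.sum_comm).trans (Finset.sum_congr rfl fun b _ => ?_)
    refine (Finset.sum_comm).trans (Finset.sum_congr rfl fun c _ => Finset.sum_congr rfl fun i _ => ?_)
    ring
  have hry : r y = 1 := if_pos (MulAction.mem_orbit_self y)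
  have hn : (0 : ℝ) < (Fintype.card Q : ℝ) := by
    exact_mod_cast Fintype.card_pos_iff.2 ⟨e⟩
  have havg' : ∑ b, ∑ c, r (ld h c ((Rp h (ld h b ((Rp h y ^ k') b)) ^ k) c)) =
      (Fintype.card Q : ℝ) * (Fintype.card Q : ℝ) := by
    rw [hry] at havg
    have h1 : ((Fintype.card Q : ℝ))⁻¹ * ∑ b, (((Fintype.card Q : ℝ))⁻¹ *
      ∑ c, r (ld h c ((Rp h (ld h b ((Rp h y ^ k') b)) ^ k) c))) = 1 := by
      apply Complex.ofReal_injective
      rw [← havg]
      push_cast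
      rfl
    rw [← Finset.mul_sum, ← mul_assoc] at h1
    field_simp at h1
    rw [h1]
    ring
  have hall : ∀ b c, r (ld h c ((Rp h (ld h b ((Rp h y ^ k') b)) ^ k) c)) = 1 := by
    have h1 : ∑ b, ∑ c, (1 - r (ld h c ((Rp h (ld h b ((Rp h y ^ k') b)) ^ k) c))) = 0 := by
      simp only [Finset.sum_sub_distrib]
      rw [havg']
      simp
    have hnn : ∀ b c, 0 ≤ 1 - r (ld h c ((Rp h (ld h b ((Rp h y ^ k') b)) ^ k) c)) :=
      fun b c => sub_nonneg.2 (hr1 _)
    intro b c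
    have h2 := (Finset.sum_eq_zero_iff_of_nonneg (fun b _ => Finset.sum_nonneg (fun c _ => hnn b c))).1 h1 b
      (Finset.mem_univ b)
    have h3 := (Finset.sum_eq_zero_iff_of_nonneg (fun c _ => hnn b c)).1 h2 c (Finset.mem_univ c)
    linarith
  have h1 := hall e c
  have h2 : ld h e ((Rp h y ^ k') e) = x := by
    rw [ld_e, Rp_pow_e, hy]
    exact galb_root h hpa N hR k k' hkk x
  rw [h2] at h1
  by_contra hcon
  have h3 : r (ld h c ((Rp h x ^ k) c)) = 0 := if_neg hcon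
  rw [h3] at h1
  exact zero_ne_one h1

/-- `phi_i (x^k)` is given by one rational polynomial at `ζ^k`. From `gal_poly_exists` and
`disp_class` (`phi` is constant on orbits). -/
theorem gal_phi (h : IsLoop mul e) (hpa : PowAssoc mul e) {E : Matrix Q Q ℂ} {f : ℕ}
    (hE : Sph mul E f) (N : ℕ) (hN : 0 < N) (hR : ∀ x, Rp h x ^ N = 1) (ζ : ℂ)
    (hζ : IsPrimitiveRoot ζ N) (x : Q) :
    ∃ F : Polynomial ℚ, ∀ k : ℕ, k.Coprime N →
      Polynomial.aeval (ζ ^ k) F = phi E f e (pw mul e x k) := by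
  obtain ⟨F, hF⟩ := gal_poly_exists h hE N hN x (hR x) ζ hζ
  refine ⟨F, fun k hk => ?_⟩
  have h1 : ∀ b, phi E f e (ld h b ((Rp h x ^ k) b)) = phi E f e (pw mul e x k) := by
    intro b
    obtain ⟨g, hg, hgx⟩ := (mem_orbit_iff mul _ _).1 (disp_class h hpa N hN hR k hk x b)
    rw [← hgx, phi_inn h hE hg]
  have hn : ((Fintype.card Q : ℂ)) ≠ 0 := by
    have : 0 < Fintype.card Q := Fintype.card_pos_iff.2 ⟨e⟩
    exact_mod_cast this.ne'
  rw [hF k, Finset.sum_congr rfl fun b _ => h1 b, Finset.sum_const, Finset.card_univ, nsmul_eq_mul,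
    ← mul_assoc, inv_mul_cancel₀ hn, one_mul]

/-- `(x^m)^n = x^(m n)` in a power-associative loop (induction on n). -/
theorem pw_pw (h : IsLoop mul e) (hpa : PowAssoc mul e) (x : Q) (m n : ℕ) :
    pw mul e (pw mul e x m) n = pw mul e x (m * n) := galb_pw_pw h hpa x m n

/-- The k-th power map is injective for k prime to N: `(x^k)^k' = x^(k k') = x` for `k k' = 1 mod N`. -/
theorem pw_inj (h : IsLoop mul e) (hpa : PowAssoc mul e) (N : ℕ) (hN : 0 < N)
    (hR : ∀ x, Rp h x ^ N = 1) (k : ℕ) (hk : k.Coprime N) :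
    Function.Injective (fun x => pw mul e x k) := by
  obtain ⟨k', hkk⟩ := galb_inv k N hN hk
  intro x y hxy
  have hxy' : pw mul e x k = pw mul e y k := hxy
  rw [← galb_root h hpa N hR k k' hkk x, ← galb_root h hpa N hR k k' hkk y, hxy']

end CAL
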