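import Pool.Agent.CAL.Arith

set_option autoImplicit false

/-!
Row CAL-NB: a lower bound for the conjugates of an algebraic integer divisible by p.
-/

namespace CAL

theorem nb_sum_rat_aux (N : ℕ) (hN : 0 < N) (L : Type) [Field L] [Algebra ℚ L]
    [IsCyclotomicExtension {N} ℚ L] (g : Polynomial ℚ) :
    (∃ r : ℚ, ∑ μ ∈ primitiveRoots N ℂ, Polynomial.aeval μ g = (r : ℂ)) ∧
    (∃ r : ℚ, ∏ μ ∈ primitiveRoots N ℂ, Polynomial.aeval μ g = (r : ℂ)) := by
  classical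
  have : NeZero N := ⟨hN.ne'⟩
  have hz : IsPrimitiveRoot (IsCyclotomicExtension.zeta N ℚ L) N :=
    IsCyclotomicExtension.zeta_spec N ℚ L
  set z := IsCyclotomicExtension.zeta N ℚ L with hzdef
  have hirr : Irreducible (Polynomial.cyclotomic N ℚ) := Polynomial.cyclotomic.irreducible_rat hN
  have : FiniteDimensional ℚ L := IsCyclotomicExtension.finiteDimensional {N} ℚ L
  have hcoe : ∀ σ : L →ₐ[ℚ] ℂ,
      σ (Polynomial.aeval z g) =
        Polynomial.aeval ((hz.embeddingsEquivPrimitiveRoots ℂ hirr σ : primitiveRoots N ℂ) : ℂ) g := by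
    intro σ
    rw [hz.embeddingsEquivPrimitiveRoots_apply_coe ℂ hirr σ]
    exact (Polynomial.aeval_algHom_apply σ z g).symm
  refine ⟨⟨Algebra.trace ℚ L (Polynomial.aeval z g), ?_⟩,
    ⟨Algebra.norm ℚ (Polynomial.aeval z g), ?_⟩⟩
  · have h1 := trace_eq_sum_embeddings (K := ℚ) (L := L) ℂ
      (x := Polynomial.aeval z g)
    rw [eq_ratCast] at h1
    rw [h1, ← Finset.sum_coe_sort]
    symm
    exact Fintype.sum_equiv (hz.embeddingsEquivPrimitiveRoots ℂ hirr) _ _ hcoe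
  · have h1 := Algebra.norm_eq_prod_embeddings (K := ℚ) (L := L) ℂ
      (Polynomial.aeval z g)
    rw [eq_ratCast] at h1
    rw [h1, ← Finset.prod_coe_sort]
    symm
    exact Fintype.prod_equiv (hz.embeddingsEquivPrimitiveRoots ℂ hirr) _ _ hcoe

theorem nb_sum_rat (N : ℕ) (hN : 0 < N) (g : Polynomial ℚ) :
    (∃ r : ℚ, ∑ μ ∈ primitiveRoots N ℂ, Polynomial.aeval μ g = (r : ℂ)) ∧
    (∃ r : ℚ, ∏ μ ∈ primitiveRoots N ℂ, Polynomial.aeval μ g = (r : ℂ)) := by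
  have : NeZero ((N : ℕ) : ℚ) := ⟨by exact_mod_cast hN.ne'⟩
  have : NeZero N := ⟨hN.ne'⟩
  exact @nb_sum_rat_aux N hN (CyclotomicField N ℚ) _ (CyclotomicField.algebra N ℚ)
    (CyclotomicField.isCyclotomicExtension N ℚ) g

theorem nb_rat_int {z : ℂ} {r : ℚ} (hz : IsIntegral ℤ z) (hr : z = (r : ℂ)) :
    ∃ m : ℤ, z = (m : ℂ) := by
  have h1 : z = algebraMap ℚ ℂ r := by rw [eq_ratCast]; exact hr
  rw [h1] at hz
  have h5 : IsIntegral ℤ r := (isIntegral_algebraMap_iff (algebraMap ℚ ℂ).injective).1 hz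
  obtain ⟨m, hm⟩ := (IsIntegrallyClosed.isIntegral_iff (R := ℤ) (K := ℚ)).1 h5
  refine ⟨m, ?_⟩
  rw [hr, ← hm]
  simp

theorem nb_InP_int {P : Ideal (integralClosure ℤ ℂ)} {z : ℂ} (h : InP P z) : IsIntegral ℤ z := by
  obtain ⟨w, _, hw⟩ := h
  rw [← hw]
  exact (mem_integralClosure_iff _ _).1 w.2

theorem nb_dvd {p : ℕ} (hp : p.Prime) {P : Ideal (integralClosure ℤ ℂ)} (hP : P.IsPrime)
    (hpP : ((p : ℕ) : integralClosure ℤ ℂ) ∈ P) {m : ℤ} (h : InP P (m : ℂ)) : (p : ℤ) ∣ m := by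
  obtain ⟨w, hw, hwm⟩ := h
  have h1 : w = (m : integralClosure ℤ ℂ) := by
    apply Subtype.ext
    rw [hwm]
    rfl
  rw [h1] at hw
  by_contra hd
  have hcop : IsCoprime (p : ℤ) m :=
    (Prime.coprime_iff_not_dvd (Nat.prime_iff_prime_int.1 hp)).2 hd
  obtain ⟨a, b, hab⟩ := hcop
  apply hP.ne_top
  rw [Ideal.eq_top_iff_one]
  have h4 : (1 : integralClosure ℤ ℂ) = (a : integralClosure ℤ ℂ) * (p : integralClosure ℤ ℂ) +
      (b : integralClosure ℤ ℂ) * (m : integralClosure ℤ ℂ) := by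
    have := congrArg (fun m : ℤ => (m : integralClosure ℤ ℂ)) hab
    push_cast at this
    exact this.symm
  rw [h4]
  exact P.add_mem (P.mul_mem_left _ hpP) (P.mul_mem_left _ hw)

theorem nb_InP_mul {P : Ideal (integralClosure ℤ ℂ)} {z w : ℂ} (hz : InP P z)
    (hw : IsIntegral ℤ w) : InP P (z * w) := by
  obtain ⟨z', hz', rfl⟩ := hz
  exact ⟨z' * ⟨w, hw⟩, P.mul_mem_right _ hz', rfl⟩

theorem nb_InP_sum {P : Ideal (integralClosure ℤ ℂ)} {ι : Type*} (s : Finset ι) (f : ι → ℂ)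
    (h : ∀ i ∈ s, InP P (f i)) : InP P (∑ i ∈ s, f i) := by
  classical
  induction s using Finset.induction_on with
  | empty => exact ⟨0, P.zero_mem, by simp⟩
  | insert a s ha ih =>
    rw [Finset.sum_insert ha]
    obtain ⟨x, hx, hx'⟩ := h a (Finset.mem_insert_self _ _)
    obtain ⟨y, hy, hy'⟩ := ih (fun i hi => h i (Finset.mem_insert_of_mem hi))
    exact ⟨x + y, P.add_mem hx hy, by rw [← hx', ← hy']; rfl⟩

/-- `F(ν)/p` is an algebraic integer. -/
theorem nb_div (N : ℕ) (hN : 0 < N) (p : ℕ) (hp : p.Prime) (hpN : ¬ p ∣ N)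
    (P : Ideal (integralClosure ℤ ℂ)) (hP : P.IsPrime)
    (hpP : ((p : ℕ) : integralClosure ℤ ℂ) ∈ P) (F : Polynomial ℚ)
    (hF : ∀ μ ∈ primitiveRoots N ℂ, InP P (Polynomial.aeval μ F)) (ν : ℂ)
    (hν : ν ∈ primitiveRoots N ℂ) : IsIntegral ℤ (Polynomial.aeval ν F / (p : ℂ)) := by
  classical
  have hprim : ∀ μ ∈ primitiveRoots N ℂ, IsPrimitiveRoot μ N := fun μ hμ =>
    (mem_primitiveRoots hN).1 hμ
  have hp0 : (p : ℂ) ≠ 0 := by exact_mod_cast hp.ne_zero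
  -- the traces
  have hv : ∀ j : ℕ, ∃ u : ℤ, ∑ μ ∈ primitiveRoots N ℂ,
      Polynomial.aeval μ (F * Polynomial.X ^ ((N - 1) * j)) = (p : ℂ) * (u : ℂ) := by
    intro j
    have hin : InP P (∑ μ ∈ primitiveRoots N ℂ,
        Polynomial.aeval μ (F * Polynomial.X ^ ((N - 1) * j))) := by
      refine nb_InP_sum _ _ fun μ hμ => ?_
      rw [map_mul, map_pow, Polynomial.aeval_X]
      exact nb_InP_mul (hF μ hμ) (((hprim μ hμ).isIntegral hN).pow _)
    obtain ⟨r, hr⟩ := (nb_sum_rat N hN (F * Polynomial.X ^ ((N - 1) * j))).1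
    obtain ⟨m, hm⟩ := nb_rat_int (nb_InP_int hin) hr
    rw [hm] at hin
    obtain ⟨u, hu⟩ := nb_dvd hp hP hpP hin
    refine ⟨u, ?_⟩
    rw [hm, hu]
    push_cast
    ring
  choose u hu using hv
  -- inversion
  have hinv : (N : ℂ) * Polynomial.aeval ν F = ∑ j ∈ Finset.range N, ((p : ℂ) * (u j : ℂ)) * ν ^ j := by
    have h1 : ∀ j ∈ Finset.range N, ((p : ℂ) * (u j : ℂ)) * ν ^ j =
        ∑ μ ∈ primitiveRoots N ℂ, Polynomial.aeval μ F * (μ ^ (N - 1) * ν) ^ j := by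
      intro j _
      rw [← hu j, Finset.sum_mul]
      refine Finset.sum_congr rfl fun μ _ => ?_
      rw [map_mul, map_pow, Polynomial.aeval_X, mul_pow, ← pow_mul, mul_assoc]
    rw [Finset.sum_congr rfl h1, Finset.sum_comm]
    have h2 : ∀ μ ∈ primitiveRoots N ℂ,
        ∑ j ∈ Finset.range N, Polynomial.aeval μ F * (μ ^ (N - 1) * ν) ^ j =
          if μ = ν then (N : ℂ) * Polynomial.aeval ν F else 0 := by
      intro μ hμ
      rw [← Finset.mul_sum]
      have hμN := (hprim μ hμ).pow_eq_one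
      have hνN := (hprim ν hν).pow_eq_one
      split_ifs with h
      · subst h
        have h3 : μ ^ (N - 1) * μ = 1 := by
          rw [← pow_succ, Nat.sub_add_cancel hN, hμN]
        rw [h3]
        simp [mul_comm]
      · have hne : μ ^ (N - 1) * ν ≠ 1 := by
          intro h3
          apply h
          have h4 : μ * (μ ^ (N - 1) * ν) = μ := by rw [h3, mul_one]
          rw [← mul_assoc, ← pow_succ', Nat.sub_add_cancel hN, hμN, one_mul] at h4
          exact h4.symm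
        have h5 : (μ ^ (N - 1) * ν) ^ N = 1 := by
          rw [mul_pow, ← pow_mul, mul_comm (N - 1) N, pow_mul, hμN, hνN, one_pow, one_mul]
        have h6 := mul_neg_geom_sum (μ ^ (N - 1) * ν) N
        rw [h5, sub_self] at h6
        rcases mul_eq_zero.1 h6 with h7 | h7
        · exact absurd (sub_eq_zero.1 h7).symm hne
        · rw [h7, mul_zero]
    rw [Finset.sum_congr rfl h2, Finset.sum_ite_eq' (primitiveRoots N ℂ) ν, if_pos hν]
  have hint1 : IsIntegral ℤ ((N : ℂ) * (Polynomial.aeval ν F / (p : ℂ))) := by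
    have h1 : (N : ℂ) * (Polynomial.aeval ν F / (p : ℂ)) =
        ∑ j ∈ Finset.range N, (u j : ℂ) * ν ^ j := by
      rw [← mul_div_assoc, hinv, Finset.sum_div]
      refine Finset.sum_congr rfl fun j _ => ?_
      field_simp
    rw [h1]
    refine IsIntegral.sum _ fun j _ => IsIntegral.mul ?_ ((((hprim ν hν).isIntegral hN)).pow _)
    have := isIntegral_algebraMap (R := ℤ) (A := ℂ) (x := u j)
    simpa using this
  have hint2 : IsIntegral ℤ ((p : ℂ) * (Polynomial.aeval ν F / (p : ℂ))) := by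
    rw [mul_div_cancel₀ _ hp0]
    exact nb_InP_int (hF ν hν)
  have hcop : IsCoprime (p : ℤ) (N : ℤ) := by
    rw [Nat.isCoprime_iff_coprime]
    exact (hp.coprime_iff_not_dvd).2 hpN
  obtain ⟨a, b, hab⟩ := hcop
  have h8 : Polynomial.aeval ν F / (p : ℂ) = (a : ℂ) * ((p : ℂ) * (Polynomial.aeval ν F / (p : ℂ))) +
      (b : ℂ) * ((N : ℂ) * (Polynomial.aeval ν F / (p : ℂ))) := by
    have h9 : (a : ℂ) * (p : ℂ) + (b : ℂ) * (N : ℂ) = 1 := by exact_mod_cast hab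
    rw [← mul_assoc, ← mul_assoc, ← add_mul, h9, one_mul]
  rw [h8]
  have hZ : ∀ m : ℤ, IsIntegral ℤ (m : ℂ) := fun m => by
    have := isIntegral_algebraMap (R := ℤ) (A := ℂ) (x := m)
    simpa using this
  exact ((hZ a).mul hint2).add ((hZ b).mul hint1)

theorem nb_amgm {ι : Type*} (s : Finset ι) (a : ι → ℝ) (ha : ∀ i ∈ s, 0 < a i)
    (h : 1 ≤ ∏ i ∈ s, a i) : (s.card : ℝ) ≤ ∑ i ∈ s, a i := by
  have h1 : ∑ i ∈ s, Real.log (a i) ≤ ∑ i ∈ s, (a i - 1) :=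
    Finset.sum_le_sum fun i hi => Real.log_le_sub_one_of_pos (ha i hi)
  have h2 : ∑ i ∈ s, Real.log (a i) = Real.log (∏ i ∈ s, a i) :=
    (Real.log_prod (fun i hi => (ha i hi).ne')).symm
  have h3 : 0 ≤ Real.log (∏ i ∈ s, a i) := Real.log_nonneg h
  rw [Finset.sum_sub_distrib] at h1
  simp only [Finset.sum_const, nsmul_eq_mul, mul_one] at h1
  linarith

theorem nb_reindex {M : Type*} [AddCommMonoid M] (N : ℕ) (hN : 0 < N) (ζ : ℂ)
    (hζ : IsPrimitiveRoot ζ N) (g : ℂ → M) :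
    ∑ k ∈ (Finset.range N).filter (fun k => k.Coprime N), g (ζ ^ k) =
      ∑ μ ∈ primitiveRoots N ℂ, g μ := by
  have : NeZero N := ⟨hN.ne'⟩
  refine Finset.sum_bij (fun k _ => ζ ^ k) ?_ ?_ ?_ ?_
  · intro k hk
    exact (mem_primitiveRoots hN).2 (hζ.pow_of_coprime k (Finset.mem_filter.1 hk).2)
  · intro k hk l hl hkl
    exact hζ.pow_inj (Finset.mem_range.1 (Finset.mem_filter.1 hk).1)
      (Finset.mem_range.1 (Finset.mem_filter.1 hl).1) hkl
  · intro μ hμ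
    obtain ⟨i, hi, hc, he⟩ := (hζ.isPrimitiveRoot_iff).1 ((mem_primitiveRoots hN).1 hμ)
    exact ⟨i, Finset.mem_filter.2 ⟨Finset.mem_range.2 hi, hc⟩, he⟩
  · intro k _
    rfl

/-- PROOF. Let K = CyclotomicField N ℚ (or `IntermediateField.adjoin ℚ {ζ}`), z in K a primitive N-th root
of unity, ι : K → ℂ with ι z = ζ, G = Gal(K/ℚ) = {σ_k : k mod N, coprime}, σ_k z = z^k
(`IsCyclotomicExtension.autEquivPow`). Put α = F(z), so ι (σ_k α) = F(ζ^k).
All F(ζ^k) are algebraic integers lying in P. For j < N let v_j = Σ_k σ_k (α z^(-j)) = trace (α z^(-j)), a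
rational algebraic integer, so an integer; ι v_j = Σ_k F(ζ^k) ζ^(-jk) lies in P, and P ∩ ℤ = pℤ, so
v_j = p u_j with u_j in ℤ. Now Σ_{j<N} v_j z^j = Σ_k σ_k(α) Σ_j (z^(1-k))^j = N α. So N α / p = Σ u_j z^j is
an algebraic integer, and also p α / p = α is; since N and p are coprime, α / p is an algebraic integer.
So norm (α / p) is an integer, not 0 because α ≠ 0; so Π_k |F(ζ^k) / p| ≥ 1. By the AM-GM inequality
(`Real.inner_le_nnorm...`, `Real.geom_mean_le_arith_mean_weighted`, or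
`inner_le...`) Σ_k |F(ζ^k)/p|^2 ≥ (number of k) * (Π |F(ζ^k)/p|^2)^(1/number) ≥ number of k. -/
theorem norm_bound (N : ℕ) (hN : 0 < N) (p : ℕ) (hp : p.Prime) (hpN : ¬ p ∣ N)
    (ζ : ℂ) (hζ : IsPrimitiveRoot ζ N) (P : Ideal (integralClosure ℤ ℂ)) (hP : P.IsPrime)
    (hpP : ((p : ℕ) : integralClosure ℤ ℂ) ∈ P) (F : Polynomial ℚ)
    (hF : ∀ k : ℕ, k.Coprime N → InP P (Polynomial.aeval (ζ ^ k) F))
    (h0 : Polynomial.aeval ζ F ≠ 0) :
    (((Finset.range N).filter (fun k => k.Coprime N)).card : ℝ) * (p : ℝ) ^ 2 ≤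
      ∑ k ∈ (Finset.range N).filter (fun k => k.Coprime N), ‖Polynomial.aeval (ζ ^ k) F‖ ^ 2 := by
  classical
  have : NeZero N := ⟨hN.ne'⟩
  have hp0 : (p : ℂ) ≠ 0 := by exact_mod_cast hp.ne_zero
  have hpR : (0 : ℝ) < (p : ℝ) := by exact_mod_cast hp.pos
  rw [nb_reindex N hN ζ hζ (fun μ => ‖Polynomial.aeval μ F‖ ^ 2)]
  have hcard : (((Finset.range N).filter (fun k => k.Coprime N)).card : ℝ) =
      ((primitiveRoots N ℂ).card : ℝ) := by
    have := nb_reindex (M := ℝ) N hN ζ hζ (fun _ => 1)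
    simpa using this
  rw [hcard]
  have hF' : ∀ μ ∈ primitiveRoots N ℂ, InP P (Polynomial.aeval μ F) := by
    intro μ hμ
    obtain ⟨i, _, hc, he⟩ := (hζ.isPrimitiveRoot_iff).1 ((mem_primitiveRoots hN).1 hμ)
    rw [← he]
    exact hF i hc
  -- non-vanishing at all primitive roots
  have hne : ∀ μ ∈ primitiveRoots N ℂ, Polynomial.aeval μ F ≠ 0 := by
    intro μ hμ h1
    obtain ⟨i, _, hc, he⟩ := (((mem_primitiveRoots hN).1 hμ).isPrimitiveRoot_iff).1 hζ
    apply h0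
    rw [← he]
    exact gal_poly N hN μ ((mem_primitiveRoots hN).1 hμ) i hc F h1
  -- the product of F(μ)/p is a nonzero integer
  have hint := nb_div N hN p hp hpN P hP hpP F hF'
  obtain ⟨r, hr⟩ := (nb_sum_rat N hN (Polynomial.C ((p : ℚ)⁻¹) * F)).2
  have hCF : ∀ μ : ℂ, Polynomial.aeval μ (Polynomial.C ((p : ℚ)⁻¹) * F) =
      Polynomial.aeval μ F / (p : ℂ) := by
    intro μ
    rw [map_mul, Polynomial.aeval_C, eq_ratCast]
    push_cast
    rw [div_eq_inv_mul]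
  simp only [hCF] at hr
  obtain ⟨m, hm⟩ := nb_rat_int (IsIntegral.prod _ hint) hr
  have hm0 : m ≠ 0 := by
    intro h1
    rw [h1, Int.cast_zero] at hm
    obtain ⟨μ, hμ, h2⟩ := Finset.prod_eq_zero_iff.1 hm
    rcases div_eq_zero_iff.1 h2 with h3 | h3
    · exact hne μ hμ h3
    · exact hp0 h3
  have hnorm : 1 ≤ ∏ μ ∈ primitiveRoots N ℂ, (‖Polynomial.aeval μ F / (p : ℂ)‖ ^ 2) := by
    rw [Finset.prod_pow, ← norm_prod, hm]
    rw [Complex.norm_intCast]
    have h1 : (1 : ℤ) ≤ |m| := Int.one_le_abs hm0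
    have h2 : (1 : ℝ) ≤ |(m : ℝ)| := by exact_mod_cast h1
    exact one_le_pow₀ h2
  have hamgm := nb_amgm (primitiveRoots N ℂ) (fun μ => ‖Polynomial.aeval μ F / (p : ℂ)‖ ^ 2) ?_ hnorm
  · have h3 : ∀ μ ∈ primitiveRoots N ℂ, ‖Polynomial.aeval μ F / (p : ℂ)‖ ^ 2 =
        ‖Polynomial.aeval μ F‖ ^ 2 / (p : ℝ) ^ 2 := by
      intro μ _
      rw [norm_div, div_pow, Complex.norm_natCast]
    rw [Finset.sum_congr rfl h3, ← Finset.sum_div, le_div_iff₀ (by positivity)] at hamgm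
    exact hamgm
  · intro μ hμ
    have : Polynomial.aeval μ F / (p : ℂ) ≠ 0 := div_ne_zero (hne μ hμ) hp0
    positivity

end CAL
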