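import Pool.Agent.CAL.GalB

set_option autoImplicit false
set_option linter.unusedSectionVars false

/-!
Row CAL-Ord: the right translations have order prime to p.
-/

namespace CAL

variable {Q : Type} [Fintype Q] [DecidableEq Q] {mul : Q → Q → Q} {e : Q}

/-- `R_x^j ∈ R_{x^j} Inn(Q)`. Induction: `R_x^(j+1) = R_x R_x^j = R_x R_{x^j} g`, and
`R_x R_a = R_{a x} g'` with `g'` the inner mapping `(g' z) (a x) = (z a) x`, `a x = x^(j+1)` (`pw_succ`). -/
theorem Rp_pow_mem (h : IsLoop mul e) (x : Q) (j : ℕ) :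
    ∃ g ∈ inn mul, Rp h x ^ j = Rp h (pw mul e x j) * g := by
  have he : Rp h e = 1 := by
    ext z
    rw [Rp_apply, h.mul_one]
    rfl
  induction j with
  | zero => exact ⟨1, Subgroup.one_mem _, by rw [pow_zero, pw_zero, he, one_mul]⟩
  | succ j ih =>
    obtain ⟨g, hg, hj⟩ := ih
    refine ⟨(Rp h (mul (pw mul e x j) x))⁻¹ * (Rp h x * Rp h (pw mul e x j)) * g,
      Subgroup.mul_mem _ (Subgroup.subset_closure ?_) hg, ?_⟩
    · refine Or.inr (Or.inl ⟨pw mul e x j, x, fun z => ?_⟩)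
      exact (Rp h (mul (pw mul e x j) x)).apply_symm_apply (mul (mul z (pw mul e x j)) x)
    · rw [pow_succ', hj, pw_succ, mul_assoc, mul_inv_cancel_left, mul_assoc]


/-- PROOF. It is enough that p does not divide the order m of `R_x`, for every x (then take for N the
product of all `orderOf (Rp h x)`). Suppose m = p m'. Let y = x^m' = R_x^m'(e). Then y^p = x^(m' p) = R_x^m(e) = e
(`pw_pw`, `Rp_pow_e`), so y = e by hypothesis. By `Rp_pow_mem`, `R_x^m' = R_e g = g ∈ inn mul`, and this element has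
order p, so p divides `Nat.card (inn mul)`: contradiction. -/
theorem exists_N (h : IsLoop mul e) (hpa : PowAssoc mul e) (p : ℕ) (hp : p.Prime)
    (hH : ¬ p ∣ Nat.card (inn mul)) (hno : ∀ x, pw mul e x p = e → x = e) :
    ∃ N : ℕ, 0 < N ∧ ¬ p ∣ N ∧ ∀ x, Rp h x ^ N = 1 := by
  have he : Rp h e = 1 := by
    ext z
    rw [Rp_apply, h.mul_one]
    rfl
  refine ⟨∏ x, orderOf (Rp h x), Finset.prod_pos fun x _ => orderOf_pos _, ?_, ?_⟩
  · intro hd
    obtain ⟨x, -, hx⟩ := (Prime.dvd_finsetProd_iff hp.prime _).1 hd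
    obtain ⟨m, hm⟩ := hx
    have hm0 : m ≠ 0 := by
      rintro rfl
      have := orderOf_pos (Rp h x)
      omega
    have h1 : pw mul e (pw mul e x m) p = e := by
      have h2 : pw mul e (pw mul e x m) p = pw mul e x (m * p) := pw_pw h hpa x m p
      rw [h2, ← Rp_pow_e h, mul_comm m p, ← hm, pow_orderOf_eq_one]
      rfl
    have h2 := hno _ h1
    obtain ⟨g, hg, hj⟩ := Rp_pow_mem h x m
    rw [h2, he, one_mul] at hj
    have h3 : orderOf g = p := by
      rw [← hj, orderOf_pow_of_dvd hm0 ⟨p, by rw [hm, mul_comm]⟩, hm,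
        Nat.mul_div_cancel _ (Nat.pos_of_ne_zero hm0)]
    exact hH (h3 ▸ Subgroup.orderOf_dvd_natCard _ hg)
  · intro x
    exact orderOf_dvd_iff_pow_eq_one.1 (Finset.dvd_prod_of_mem _ (Finset.mem_univ x))


end CAL
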