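import Pool.Agent.CAL.Blk
import Pool.Agent.CAL.NB
import Pool.Agent.CAL.GalB
import Pool.Agent.CAL.Ord
import Pool.Agent.CAL.Cnt

set_option autoImplicit false
set_option linter.unusedSectionVars false
set_option linter.style.haveILetI false

namespace CAL

open Matrix

variable {Q : Type} [Fintype Q] [DecidableEq Q] {mul : Q → Q → Q} {e : Q}

theorem exists_prime_over (p : ℕ) (hp : p.Prime) :
    ∃ P : Ideal (integralClosure ℤ ℂ), P.IsPrime ∧ ((p : ℕ) : integralClosure ℤ ℂ) ∈ P := by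
  have hnu : ¬ IsUnit ((p : ℕ) : integralClosure ℤ ℂ) := by
    intro hu
    obtain ⟨u, hu⟩ := hu
    -- 1/p would be integral over ℤ
    have h1 : IsIntegral ℤ (((u⁻¹ : (integralClosure ℤ ℂ)ˣ) : integralClosure ℤ ℂ) : ℂ) :=
      (mem_integralClosure_iff _ _).1 ((u⁻¹ : (integralClosure ℤ ℂ)ˣ) : integralClosure ℤ ℂ).2
    have h2 : ((p : ℂ)) * (((u⁻¹ : (integralClosure ℤ ℂ)ˣ) : integralClosure ℤ ℂ) : ℂ) = 1 := by
      have := u.mul_inv
      rw [hu] at this
      have h3 := congrArg (fun z : integralClosure ℤ ℂ => (z : ℂ)) this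
      simpa using h3
    have hp0 : (p : ℂ) ≠ 0 := by exact_mod_cast hp.ne_zero
    have h4 : (((u⁻¹ : (integralClosure ℤ ℂ)ˣ) : integralClosure ℤ ℂ) : ℂ) =
        algebraMap ℚ ℂ (1 / (p : ℚ)) := by
      rw [eq_ratCast]
      push_cast
      rw [eq_div_iff hp0, mul_comm]
      exact h2
    rw [h4] at h1
    have h5 : IsIntegral ℤ (1 / (p : ℚ)) :=
      (isIntegral_algebraMap_iff (algebraMap ℚ ℂ).injective).1 h1
    obtain ⟨m, hm⟩ := (IsIntegrallyClosed.isIntegral_iff (R := ℤ) (K := ℚ)).1 h5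
    have hpq : (p : ℚ) ≠ 0 := by exact_mod_cast hp.ne_zero
    have h6 : (m : ℚ) * p = 1 := by
      rw [eq_div_iff hpq] at hm
      simpa using hm
    have h7 : m * (p : ℤ) = 1 := by exact_mod_cast h6
    have h8 : (p : ℤ) ∣ 1 := ⟨m, by rw [mul_comm]; exact h7.symm⟩
    have h9 : p ∣ 1 := by exact_mod_cast h8
    exact hp.one_lt.ne' (Nat.dvd_one.1 h9)
  obtain ⟨P, hP, hpP⟩ := exists_max_ideal_of_mem_nonunits hnu
  exact ⟨P, hP.isPrime, hpP⟩

theorem InP_mul {P : Ideal (integralClosure ℤ ℂ)} {z w : ℂ} (hz : InP P z) (hw : IsIntegral ℤ w) :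
    InP P (w * z) := by
  obtain ⟨z', hz', rfl⟩ := hz
  exact ⟨⟨w, hw⟩ * z', P.mul_mem_left _ hz', rfl⟩

/-- If `t * z` is in `P`, `t` a natural number prime to `p`, `z` integral, then `z` is in `P`. -/
theorem InP_of_nat_mul {P : Ideal (integralClosure ℤ ℂ)} (hP : P.IsPrime) {p : ℕ}
    (hpP : ((p : ℕ) : integralClosure ℤ ℂ) ∈ P) {z : ℂ} (hz : IsIntegral ℤ z)
    {t : ℕ} (ht : Nat.Coprime t p) (htz : InP P ((t : ℂ) * z)) : InP P z := by
  obtain ⟨w, hw, hwz⟩ := htz
  refine ⟨⟨z, hz⟩, ?_, rfl⟩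
  have h1 : w = (t : integralClosure ℤ ℂ) * ⟨z, hz⟩ := by
    apply Subtype.ext
    rw [hwz]
    rfl
  rw [h1] at hw
  rcases hP.mem_or_mem hw with h2 | h2
  · exfalso
    apply hP.ne_top
    rw [Ideal.eq_top_iff_one]
    have h3 : IsCoprime (t : ℤ) (p : ℤ) := Nat.isCoprime_iff_coprime.2 ht
    obtain ⟨a, b, hab⟩ := h3
    have h4 : (1 : integralClosure ℤ ℂ) = (a : integralClosure ℤ ℂ) * (t : integralClosure ℤ ℂ) +
        (b : integralClosure ℤ ℂ) * (p : integralClosure ℤ ℂ) := by
      have := congrArg (fun m : ℤ => (m : integralClosure ℤ ℂ)) hab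
      push_cast at this
      exact this.symm
    rw [h4]
    exact P.add_mem (P.mul_mem_left _ h2) (P.mul_mem_left _ hpP)
  · exact h2

theorem osz_coprime (p : ℕ) (hp : p.Prime) (hH : ¬ p ∣ Nat.card (inn mul)) (x : Q) :
    Nat.Coprime (osz mul x) p := by
  rw [Nat.coprime_comm, hp.coprime_iff_not_dvd]
  intro hd
  apply hH
  have h1 : osz mul x = Nat.card (MulAction.orbit (inn mul) x) := rfl
  have h2 : Nat.card (MulAction.orbit (inn mul) x) ∣ Nat.card (inn mul) := by
    rw [Nat.card_congr (MulAction.orbitEquivQuotientStabilizer (inn mul) x)]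
    exact Subgroup.index_dvd_card _
  exact hd.trans (h1 ▸ h2)

/-- The main inequality (I). -/
theorem core (h : IsLoop mul e) (hpa : PowAssoc mul e) (p : ℕ) (hp : p.Prime)
    (hdvd : p ∣ Fintype.card Q) (hH : ¬ p ∣ Nat.card (inn mul))
    (hno : ∀ x, pw mul e x p = e → x = e) :
    ∃ K : Finset Q, p * K.card ≤ Fintype.card Q ∧
      (p : ℝ) * ((p : ℝ) - 1) * ∑ x ∈ Kᶜ, 1 / (osz mul x : ℝ) ^ 2 ≤ (Fintype.card Q : ℝ) := by
  classical
  obtain ⟨N, hN, hpN, hR⟩ := exists_N h hpa p hp hH hno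
  obtain ⟨ι, _, _, E, f, i0, hF⟩ := exists_fam h
  obtain ⟨P, hP, hpP⟩ := exists_prime_over p hp
  obtain ⟨i, hi, hblk⟩ := exists_block h hF P hP p hpP hdvd
  haveI : Nonempty Q := ⟨e⟩
  have hζ := Complex.isPrimitiveRoot_exp N hN.ne'
  set ζ := Complex.exp (2 * Real.pi * Complex.I / N) with hζdef
  have hE := hF.sph i
  have hint : ∀ x, IsIntegral ℤ ((osz mul x : ℂ) * phi (E i) (f i) e x) := phi_int h hE
  have hnat : ∀ m : ℕ, IsIntegral ℤ (m : ℂ) := fun m => by
    have := isIntegral_algebraMap (R := ℤ) (A := ℂ) (x := (m : ℤ))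
    simpa using this
  -- f * phi is integral
  have hfint : ∀ x, IsIntegral ℤ ((f i : ℂ) * phi (E i) (f i) e x) := by
    intro x
    obtain ⟨d, hd⟩ := root_trace (E i) hE.idem (Rp h x) N hN (hR x) (comm_R h hE x) ζ hζ
    have h1 := hd 1
    rw [pow_one, trace_R h hE] at h1
    rw [h1]
    refine IsIntegral.sum _ fun j _ => (hnat _).mul ?_
    exact ((hζ.isIntegral hN).pow _)
  have h1int : IsIntegral ℤ (1 : ℂ) := isIntegral_one
  refine count_core p hp.two_le (fun x => phi (E i) (f i) e x) (osz mul) (osz_pos mul) (f i)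
    hE.pos ((Finset.range N).filter (fun k => k.Coprime N)) ?_ (fun k x => pw mul e x k) ?_
    (sum_phi h hE (hF.ann i hi)) (sum_norm h hE) ?_
  · -- nonempty
    rcases Nat.lt_or_ge 1 N with h1 | h1
    · exact ⟨1, Finset.mem_filter.2 ⟨Finset.mem_range.2 h1, Nat.coprime_one_left N⟩⟩
    · have : N = 1 := le_antisymm h1 hN
      subst this
      exact ⟨0, Finset.mem_filter.2 ⟨Finset.mem_range.2 one_pos, by norm_num⟩⟩
  · intro k hk
    exact pw_inj h hpa N hN hR k (Finset.mem_filter.1 hk).2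
  · intro x hx a ha
    obtain ⟨F, hFk⟩ := gal_phi h hpa hE N hN hR ζ hζ x
    have ha0 : 0 < a := by
      rcases ha with ha | ha
      · rw [ha]; exact osz_pos mul x
      · rw [Set.mem_singleton_iff.1 ha]; exact hE.pos
    -- a phi(y) integral for the relevant y: conjugates
    have haint : ∀ k : ℕ, k.Coprime N → IsIntegral ℤ ((a : ℂ) * phi (E i) (f i) e (pw mul e x k)) := by
      intro k hk
      rcases ha with ha | ha
      · -- conjugate of an integral number
        rw [← hFk k hk]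
        obtain ⟨m, hm, hm0⟩ := hint x
        rw [← ha] at hm0
        -- the polynomial m(a F(X)) in ℚ[X] vanishes at ζ, hence at ζ^k
        have hev : ∀ z : ℂ, Polynomial.aeval z ((m.map (algebraMap ℤ ℚ)).comp
            (Polynomial.C (a : ℚ) * F)) = Polynomial.eval₂ (algebraMap ℤ ℂ)
              ((a : ℂ) * Polynomial.aeval z F) m := by
          intro z
          rw [Polynomial.aeval_comp, Polynomial.aeval_map_algebraMap, map_mul, Polynomial.aeval_C,
            eq_ratCast, Rat.cast_natCast, Polynomial.aeval_def]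
        have h1 : Polynomial.aeval ζ ((m.map (algebraMap ℤ ℚ)).comp
            (Polynomial.C (a : ℚ) * F)) = 0 := by
          rw [hev]
          have h2 := hFk 1 (Nat.coprime_one_left N)
          rw [pow_one, pw_one h] at h2
          rw [h2]
          exact hm0
        have h3 := gal_poly N hN ζ hζ k hk _ h1
        rw [hev] at h3
        exact ⟨m, hm, h3⟩
      · rw [Set.mem_singleton_iff.1 ha]
        exact hfint _
    have key := norm_bound N hN p hp hpN ζ hζ P hP hpP (Polynomial.C (a : ℚ) * (1 - F)) ?_ ?_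
    · have ha2 : (0 : ℝ) < (a : ℝ) ^ 2 := by positivity
      rw [div_le_iff₀ ha2]
      refine key.trans (le_of_eq ?_)
      rw [Finset.sum_mul]
      refine Finset.sum_congr rfl fun k hk => ?_
      rw [map_mul, map_sub, map_one, hFk k (Finset.mem_filter.1 hk).2, Polynomial.aeval_C,
        eq_ratCast, norm_mul, mul_pow, mul_comm]
      congr 2
      simp
    · intro k hk
      rw [map_mul, map_sub, map_one, hFk k hk, Polynomial.aeval_C, eq_ratCast, Rat.cast_natCast]
      have hz : IsIntegral ℤ ((a : ℂ) * (1 - phi (E i) (f i) e (pw mul e x k))) := by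
        rw [mul_sub, mul_one]
        exact (hnat a).sub (haint k hk)
      refine InP_of_nat_mul hP hpP hz (osz_coprime p hp hH (pw mul e x k)) ?_
      have h3 := InP_mul (hblk (pw mul e x k)) (hnat a)
      rw [mul_left_comm]
      exact h3
    · have h2 := hFk 1 (Nat.coprime_one_left N)
      rw [pow_one, pw_one h] at h2
      rw [map_mul, map_sub, map_one, h2, Polynomial.aeval_C, eq_ratCast, Rat.cast_natCast]
      refine mul_ne_zero (by exact_mod_cast ha0.ne') ?_
      intro h0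
      exact hx (sub_eq_zero.1 h0).symm

end CAL
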