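import Mathlib

set_option autoImplicit false
set_option linter.unusedVariables false

/-!
Common definitions for the Cauchy theorem for finite automorphic loops (MP_951c8d_al).
-/

namespace CAL

open Matrix

variable {Q : Type}

/-- `(Q, mul, e)` is a loop. -/
structure IsLoop (mul : Q → Q → Q) (e : Q) : Prop where
  one_mul : ∀ x, mul e x = x
  mul_one : ∀ x, mul x e = x
  ldiv : ∀ a b, ∃! x, mul a x = b
  rdiv : ∀ a b, ∃! y, mul y a = b

/-- The generators of the inner mapping group: the permutations `f` with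
`(y x) (f z) = y (x z)`, or `(f z) (x y) = (z x) y`, or `x (f z) = z x` (for all `z`). -/
def innSet (mul : Q → Q → Q) : Set (Equiv.Perm Q) :=
  {f | (∃ x y, ∀ z, mul (mul y x) (f z) = mul y (mul x z)) ∨
       (∃ x y, ∀ z, mul (f z) (mul x y) = mul (mul z x) y) ∨
       (∃ x, ∀ z, mul x (f z) = mul z x)}

/-- The inner mapping group. -/
def inn (mul : Q → Q → Q) : Subgroup (Equiv.Perm Q) := Subgroup.closure (innSet mul)

/-- All inner mappings of the three kinds are automorphisms (as in `S02353`). -/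
structure IsAut (mul : Q → Q → Q) : Prop where
  innL : ∀ (x y : Q) (f : Q → Q), (∀ z, mul (mul y x) (f z) = mul y (mul x z)) →
          ∀ u v, f (mul u v) = mul (f u) (f v)
  innR : ∀ (x y : Q) (f : Q → Q), (∀ z, mul (f z) (mul x y) = mul (mul z x) y) →
          ∀ u v, f (mul u v) = mul (f u) (f v)
  innT : ∀ (x : Q) (f : Q → Q), (∀ z, mul x (f z) = mul z x) →
          ∀ u v, f (mul u v) = mul (f u) (f v)

/-- Powers `x^k = (((e x) x) ...) x`. -/
def pw (mul : Q → Q → Q) (e : Q) (x : Q) (k : ℕ) : Q := (fun z => mul z x)^[k] e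

/-- Power associativity. -/
def PowAssoc (mul : Q → Q → Q) (e : Q) : Prop :=
  ∀ x m n, mul (pw mul e x m) (pw mul e x n) = pw mul e x (m + n)

/-- The length of the orbit of `x` under the inner mapping group. -/
noncomputable def osz (mul : Q → Q → Q) (x : Q) : ℕ := (MulAction.orbit (inn mul) x).ncard

theorem app_inv (g : Equiv.Perm Q) (x : Q) : g (g⁻¹ x) = x := g.apply_symm_apply x

theorem inv_app (g : Equiv.Perm Q) (x : Q) : g⁻¹ (g x) = x := g.symm_apply_apply x

section perms

variable {mul : Q → Q → Q} {e : Q}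

/-- Left translation `b ↦ a b` as a permutation. -/
noncomputable def Lp (h : IsLoop mul e) (a : Q) : Equiv.Perm Q :=
  Equiv.ofBijective (mul a) ⟨fun x y hxy => (h.ldiv a (mul a y)).unique hxy rfl,
    fun b => (h.ldiv a b).exists⟩

/-- Right translation `b ↦ b a` as a permutation. -/
noncomputable def Rp (h : IsLoop mul e) (a : Q) : Equiv.Perm Q :=
  Equiv.ofBijective (fun z => mul z a) ⟨fun x y hxy => (h.rdiv a (mul y a)).unique hxy rfl,
    fun b => (h.rdiv a b).exists⟩

/-- Left division `a \ b`. -/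
noncomputable def ld (h : IsLoop mul e) (a b : Q) : Q := (Lp h a).symm b

@[simp] theorem Lp_apply (h : IsLoop mul e) (a b : Q) : Lp h a b = mul a b := rfl

@[simp] theorem Rp_apply (h : IsLoop mul e) (a b : Q) : Rp h a b = mul b a := rfl

theorem mul_ld (h : IsLoop mul e) (a b : Q) : mul a (ld h a b) = b :=
  (Lp h a).apply_symm_apply b

theorem ld_mul (h : IsLoop mul e) (a b : Q) : ld h a (mul a b) = b :=
  (Lp h a).symm_apply_apply b

theorem ld_e (h : IsLoop mul e) (b : Q) : ld h e b = b := by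
  have := mul_ld h e b
  rwa [h.one_mul] at this

theorem ld_self (h : IsLoop mul e) (b : Q) : ld h b b = e := by
  have := ld_mul h b e
  rwa [h.mul_one] at this

theorem mul_left_inj' (h : IsLoop mul e) {a x y : Q} (hxy : mul a x = mul a y) : x = y :=
  (Lp h a).injective hxy

theorem mul_right_inj' (h : IsLoop mul e) {a x y : Q} (hxy : mul x a = mul y a) : x = y :=
  (Rp h a).injective hxy

theorem pw_zero (x : Q) : pw mul e x 0 = e := rfl

theorem pw_succ (x : Q) (k : ℕ) : pw mul e x (k + 1) = mul (pw mul e x k) x := by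
  unfold pw
  rw [Function.iterate_succ_apply']

theorem pw_one (h : IsLoop mul e) (x : Q) : pw mul e x 1 = x := by
  rw [pw_succ, pw_zero, h.one_mul]

theorem Rp_pow_apply (h : IsLoop mul e) (x : Q) (k : ℕ) (b : Q) :
    (Rp h x ^ k) b = (fun z => mul z x)^[k] b := by
  induction k with
  | zero => rfl
  | succ k ih => rw [pow_succ', Equiv.Perm.mul_apply, ih, Function.iterate_succ_apply', Rp_apply]

theorem Rp_pow_e (h : IsLoop mul e) (x : Q) (k : ℕ) : (Rp h x ^ k) e = pw mul e x k :=
  Rp_pow_apply h x k e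

theorem osz_pos [Finite Q] (mul : Q → Q → Q) (x : Q) : 0 < osz mul x := by
  unfold osz
  exact (Set.ncard_pos (Set.toFinite _)).2 ⟨x, MulAction.mem_orbit_self x⟩

theorem mem_orbit_iff (mul : Q → Q → Q) (x y : Q) :
    y ∈ MulAction.orbit (inn mul) x ↔ ∃ g ∈ inn mul, g x = y := by
  constructor
  · rintro ⟨g, hg⟩
    exact ⟨g.1, g.2, hg⟩
  · rintro ⟨g, hg, hgx⟩
    exact ⟨⟨g, hg⟩, hgx⟩

theorem osz_eq (mul : Q → Q → Q) {g : Equiv.Perm Q} (hg : g ∈ inn mul) (x : Q) :
    osz mul (g x) = osz mul x := by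
  unfold osz
  have : MulAction.orbit (inn mul) (g x) = MulAction.orbit (inn mul) x :=
    MulAction.orbit_eq_iff.2 ((mem_orbit_iff mul x (g x)).2 ⟨g, hg, rfl⟩)
  rw [this]

end perms

section kernels

/-- Kernels invariant under all left and all right translations. -/
def Inv (mul : Q → Q → Q) (M : Matrix Q Q ℂ) : Prop :=
  (∀ x a b, M (mul x a) (mul x b) = M a b) ∧ (∀ x a b, M (mul a x) (mul b x) = M a b)

/-- The all-ones matrix. -/
def ones (Q : Type) : Matrix Q Q ℂ := fun _ _ => 1

/-- The matrix of a permutation: `rho g a b = 1` iff `b = g a`. -/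
def rho [DecidableEq Q] (g : Equiv.Perm Q) : Matrix Q Q ℂ := fun a b => if b = g a then 1 else 0

/-- `phi E f e z = (n / f) E (z, e)`. -/
noncomputable def phi [Fintype Q] (E : Matrix Q Q ℂ) (f : ℕ) (e z : Q) : ℂ :=
  ((Fintype.card Q : ℂ) / (f : ℂ)) * E z e

/-- A `spherical idempotent` of trace `f`: a translation-invariant hermitian idempotent matrix of
trace `f`, `f > 0`, on which every invariant matrix acts as a scalar. -/
structure Sph [Fintype Q] (mul : Q → Q → Q) (E : Matrix Q Q ℂ) (f : ℕ) : Prop where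
  inv : Inv mul E
  idem : E * E = E
  herm : Eᴴ = E
  tr : E.trace = (f : ℂ)
  pos : 0 < f
  scal : ∀ M : Matrix Q Q ℂ, Inv mul M → ∃ c : ℂ, M * E = c • E

end kernels

end CAL
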