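import Pool.Agent.CAL.Defs

set_option autoImplicit false
set_option linter.unusedSectionVars false

/-!
Row CAL-Orb: counting orbits.
-/

namespace CAL

variable {Q : Type} [Fintype Q] [DecidableEq Q] {mul : Q → Q → Q} {e : Q}

theorem orb_mk (mul : Q → Q → Q) (x y : Q) :
    (Quotient.mk (MulAction.orbitRel (inn mul) Q) x = Quotient.mk (MulAction.orbitRel (inn mul) Q) y) ↔
      x ∈ MulAction.orbit (inn mul) y := by
  rw [Quotient.eq]
  exact MulAction.orbitRel_apply

open Classical in
theorem orb_fiber (mul : Q → Q → Q) (y : Q) :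
    (Finset.univ.filter (fun x : Q => Quotient.mk (MulAction.orbitRel (inn mul) Q) x =
      Quotient.mk (MulAction.orbitRel (inn mul) Q) y)).card = osz mul y := by
  unfold osz
  rw [Set.ncard_eq_toFinset_card']
  congr 1
  ext x
  rw [Finset.mem_filter, orb_mk, Set.mem_toFinset]
  simp

/-- `Σ_x 1/|orbit of x|` is the number of orbits (sum over the fibres of the quotient map;
`Finset.sum_fiberwise` or `MulAction.selfEquivSigmaOrbits`). -/
theorem sum_inv_osz (mul : Q → Q → Q) :
    ∑ x, 1 / (osz mul x : ℝ) = (Nat.card (MulAction.orbitRel.Quotient (inn mul) Q) : ℝ) := by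
  classical
  let π : Q → MulAction.orbitRel.Quotient (inn mul) Q :=
    fun x => Quotient.mk (MulAction.orbitRel (inn mul) Q) x
  have hfin : Finite (MulAction.orbitRel.Quotient (inn mul) Q) :=
    Finite.of_surjective π Quotient.mk_surjective
  have : Fintype (MulAction.orbitRel.Quotient (inn mul) Q) := Fintype.ofFinite _
  rw [← Finset.sum_fiberwise (s := Finset.univ) (g := π)]
  have h1 : ∀ ω ∈ (Finset.univ : Finset (MulAction.orbitRel.Quotient (inn mul) Q)),
      ∑ x ∈ Finset.univ.filter (fun x => π x = ω), 1 / (osz mul x : ℝ) = 1 := by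
    intro ω _
    obtain ⟨y, rfl⟩ := Quotient.mk_surjective ω
    have h2 : ∀ x ∈ Finset.univ.filter
        (fun x => π x = Quotient.mk (MulAction.orbitRel (inn mul) Q) y),
        1 / (osz mul x : ℝ) = 1 / (osz mul y : ℝ) := by
      intro x hx
      rw [Finset.mem_filter] at hx
      have h3 : x ∈ MulAction.orbit (inn mul) y := (orb_mk mul x y).1 hx.2
      obtain ⟨g, hg, hgx⟩ := (mem_orbit_iff mul y x).1 h3
      rw [← hgx, osz_eq mul hg y]
    rw [Finset.sum_congr rfl h2, Finset.sum_const, nsmul_eq_mul]
    have h4 : (Finset.univ.filter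
        (fun x => π x = Quotient.mk (MulAction.orbitRel (inn mul) Q) y)).card = osz mul y :=
      orb_fiber mul y
    rw [h4]
    have h5 : (osz mul y : ℝ) ≠ 0 := by exact_mod_cast (osz_pos mul y).ne'
    field_simp
  rw [Finset.sum_congr rfl h1, Finset.sum_const, Finset.card_univ, nsmul_eq_mul, mul_one,
    Nat.card_eq_fintype_card]

/-- PROOF. Let S be a subset of Q with a second group of permutations H' (here `inn m'`) whose orbits are
contained in orbits of H = `inn mul`; suppose every orbit of H of length prime to p meets S, and p does not divide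
the length of the H-orbit of an element of S. The number of H-orbits meeting S is at most the number of H'-orbits
on S (the map H'-orbit of x ↦ H-orbit of x from one set of orbits onto the other is well defined and
surjective). Every H-orbit not meeting S has length divisible by p, so at least p elements, and is disjoint
from S; so p (number of H-orbits not meeting S) ≤ |Q| - |S|. -/
theorem orbits_sub (p : ℕ) (hp : p.Prime) (S : Q → Prop)
    (m' : {x : Q // S x} → {x : Q // S x} → {x : Q // S x})
    (horb : ∀ x y : {x : Q // S x}, y ∈ MulAction.orbit (inn m') x → (y : Q) ∈ MulAction.orbit (inn mul) (x : Q))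
    (h1 : ∀ x, ¬ p ∣ osz mul x → ∃ g ∈ inn mul, S (g x)) :
    p * Nat.card (MulAction.orbitRel.Quotient (inn mul) Q) + Nat.card {x : Q // S x} ≤
      p * Nat.card (MulAction.orbitRel.Quotient (inn m') {x : Q // S x}) + Fintype.card Q := by
  classical
  let π : Q → MulAction.orbitRel.Quotient (inn mul) Q :=
    fun x => Quotient.mk (MulAction.orbitRel (inn mul) Q) x
  let π' : {x : Q // S x} → MulAction.orbitRel.Quotient (inn m') {x : Q // S x} :=
    fun x => Quotient.mk (MulAction.orbitRel (inn m') {x : Q // S x}) x
  have : Finite (MulAction.orbitRel.Quotient (inn mul) Q) :=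
    Finite.of_surjective π Quotient.mk_surjective
  have : Fintype (MulAction.orbitRel.Quotient (inn mul) Q) := Fintype.ofFinite _
  have : Finite (MulAction.orbitRel.Quotient (inn m') {x : Q // S x}) :=
    Finite.of_surjective π' Quotient.mk_surjective
  have : Fintype (MulAction.orbitRel.Quotient (inn m') {x : Q // S x}) := Fintype.ofFinite _
  let F : MulAction.orbitRel.Quotient (inn m') {x : Q // S x} →
      MulAction.orbitRel.Quotient (inn mul) Q :=
    Quotient.lift (fun x : {x : Q // S x} => π (x : Q)) (by
      intro a b hab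
      have h2 : a ∈ MulAction.orbit (inn m') b := MulAction.orbitRel_apply.1 hab
      exact (orb_mk mul (a : Q) (b : Q)).2 (horb b a h2))
  have hF : ∀ x : {x : Q // S x}, F (π' x) = π (x : Q) := fun x => rfl
  let R : Finset (MulAction.orbitRel.Quotient (inn mul) Q) := Finset.univ.image F
  have hR : R.card ≤ Nat.card (MulAction.orbitRel.Quotient (inn m') {x : Q // S x}) := by
    rw [Nat.card_eq_fintype_card]
    exact Finset.card_image_le
  have hRS : ∀ x : Q, S x → π x ∈ R := by
    intro x hx
    rw [Finset.mem_image]
    exact ⟨π' ⟨x, hx⟩, Finset.mem_univ _, hF ⟨x, hx⟩⟩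
  have hRp : ∀ x : Q, π x ∉ R → p ≤ osz mul x := by
    intro x hx
    have hdvd : p ∣ osz mul x := by
      by_contra hnd
      obtain ⟨g, hg, hgx⟩ := h1 x hnd
      apply hx
      have h3 : π x = π (g x) :=
        ((orb_mk mul (g x) x).2 ((mem_orbit_iff mul x (g x)).2 ⟨g, hg, rfl⟩)).symm
      rw [h3]
      exact hRS _ hgx
    exact Nat.le_of_dvd (osz_pos mul x) hdvd
  let s : Finset Q := Finset.univ.filter (fun x => π x ∉ R)
  let t : Finset (MulAction.orbitRel.Quotient (inn mul) Q) := Finset.univ.filter (fun ω => ω ∉ R)
  have hs : s.card = ∑ ω ∈ t, (s.filter (fun x => π x = ω)).card := by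
    apply Finset.card_eq_sum_card_fiberwise
    intro x hx
    have hx' : x ∈ s := hx
    rw [Finset.mem_filter] at hx'
    have : π x ∈ t := Finset.mem_filter.2 ⟨Finset.mem_univ _, hx'.2⟩
    exact this
  have hst : t.card * p ≤ s.card := by
    rw [hs, ← smul_eq_mul]
    apply Finset.card_nsmul_le_sum
    intro ω hω
    obtain ⟨y, rfl⟩ := Quotient.mk_surjective ω
    have hy : π y ∉ R := (Finset.mem_filter.1 hω).2
    have h4 : s.filter (fun x => π x = π y) = Finset.univ.filter (fun x => π x = π y) := by
      ext x
      simp only [s, Finset.mem_filter, Finset.mem_univ, true_and]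
      constructor
      · rintro ⟨_, h⟩
        exact h
      · intro h
        exact ⟨by rw [h]; exact hy, h⟩
    have h5 : (Finset.univ.filter (fun x => π x = π y)).card = osz mul y := orb_fiber mul y
    have h6 : p ≤ (s.filter (fun x => π x = π y)).card := by
      rw [h4, h5]
      exact hRp y hy
    exact h6
  have hsS : s.card + Nat.card {x : Q // S x} ≤ Fintype.card Q := by
    rw [Nat.card_eq_fintype_card, Fintype.card_subtype]
    have hdisj : Disjoint s (Finset.univ.filter (fun x : Q => S x)) := by
      rw [Finset.disjoint_left]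
      intro x hx hx'
      exact (Finset.mem_filter.1 hx).2 (hRS x (Finset.mem_filter.1 hx').2)
    rw [← Finset.card_union_of_disjoint hdisj]
    exact Finset.card_le_univ _
  have htR : Nat.card (MulAction.orbitRel.Quotient (inn mul) Q) = R.card + t.card := by
    rw [Nat.card_eq_fintype_card, ← Finset.card_univ]
    have h7 := Finset.card_filter_add_card_filter_not (s := (Finset.univ : Finset
      (MulAction.orbitRel.Quotient (inn mul) Q))) (fun ω => ω ∈ R)
    rw [← h7]
    congr 2
    ext ω
    simp
  rw [htR]
  nlinarith [Nat.mul_le_mul_left p hR]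

end CAL
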