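import Pool.Agent.CAL.Defs

set_option autoImplicit false
set_option linter.unusedSectionVars false

/-!
Row CAL-PA: power associativity of automorphic loops.
-/

namespace CAL

variable {Q : Type} {mul : Q → Q → Q} {e : Q}

/-- Automorphic loops are power-associative (Bruck-Paige). PROOF. Write R_a = Rp h a, L_a = Lp h a.
(1) The map f = L_x⁻¹ R_x satisfies x (f z) = z x, so it is an automorphism by `innT`; f x = x; an automorphism f
with f x = x satisfies f (z x) = (f z) x, i.e. it commutes with R_x, and f (x^j) = x^j for all j, i.e.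
x (x^j) = (x^j) x = x^(j+1).
(2) Claim: R_{x^a} R_x = R_x R_{x^a} for all a. a = 0 is trivial. Let g be the inner map with
(g z) (x^a x) = (z x^a) x (`innR` with x := x^a, y := x). (g x) x^(a+1) = (x x^a) x = x^(a+1) x = x^(a+2) = x x^(a+1)
by (1), so g x = x, and g commutes with R_x. From R_{x^(a+1)} g = R_x R_{x^a} and the induction hypothesis,
R_{x^(a+1)} commutes with R_x.
(3) x^b x^a = R_{x^a} R_x^b (e) = R_x^b R_{x^a}(e) = R_x^b (x^a) = R_x^b R_x^a (e) = x^(a+b). -/
theorem powAssoc_of_aut (h : IsLoop mul e) (ha : IsAut mul) : PowAssoc mul e := by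
  intro x m n
  -- (1)
  have hf : ∀ z, mul x (((Lp h x)⁻¹ * Rp h x : Equiv.Perm Q) z) = mul z x := by
    intro z
    exact (Lp h x).apply_symm_apply (mul z x)
  have hfm := ha.innT x _ hf
  have hfx : ((Lp h x)⁻¹ * Rp h x : Equiv.Perm Q) x = x := mul_left_inj' h (hf x)
  have hfe : ((Lp h x)⁻¹ * Rp h x : Equiv.Perm Q) e = e := by
    refine mul_left_inj' h (a := x) ?_
    rw [hf, h.one_mul, h.mul_one]
  have hfX : ∀ j, ((Lp h x)⁻¹ * Rp h x : Equiv.Perm Q) (pw mul e x j) = pw mul e x j := by
    intro j
    induction j with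
    | zero => rw [pw_zero, hfe]
    | succ j ih => rw [pw_succ, hfm, ih, hfx]
  have hx1 : ∀ j, mul x (pw mul e x j) = pw mul e x (j + 1) := by
    intro j
    rw [pw_succ, ← hf, hfX]
  -- (2)
  have hC : ∀ a z, mul (mul z x) (pw mul e x a) = mul (mul z (pw mul e x a)) x := by
    intro a
    induction a with
    | zero =>
      intro z
      rw [pw_zero, h.mul_one, h.mul_one]
    | succ a ih =>
      intro z
      have hg : ∀ z, mul (((Rp h (mul (pw mul e x a) x))⁻¹ * (Rp h x * Rp h (pw mul e x a)) :
          Equiv.Perm Q) z) (mul (pw mul e x a) x) = mul (mul z (pw mul e x a)) x := by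
        intro z
        exact (Rp h (mul (pw mul e x a) x)).apply_symm_apply (mul (mul z (pw mul e x a)) x)
      have hgm := ha.innR (pw mul e x a) x _ hg
      have hgx : ((Rp h (mul (pw mul e x a) x))⁻¹ * (Rp h x * Rp h (pw mul e x a)) :
          Equiv.Perm Q) x = x := by
        refine mul_right_inj' h (a := mul (pw mul e x a) x) ?_
        have h1 : mul (pw mul e x a) x = pw mul e x (a + 1) := (pw_succ x a).symm
        have h2 : mul (pw mul e x (a + 1)) x = pw mul e x (a + 1 + 1) := (pw_succ x (a + 1)).symm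
        rw [hg, hx1, h1, hx1, h2]
      obtain ⟨w, rfl⟩ := ((Rp h (mul (pw mul e x a) x))⁻¹ * (Rp h x * Rp h (pw mul e x a)) :
          Equiv.Perm Q).surjective z
      have h1 := hgm w x
      rw [hgx] at h1
      rw [← h1, pw_succ, hg, hg, ih]
  -- (3)
  induction m with
  | zero => rw [pw_zero, h.one_mul, Nat.zero_add]
  | succ m ih =>
    have h1 : mul (pw mul e x (m + n)) x = pw mul e x (m + n + 1) := (pw_succ x (m + n)).symm
    rw [pw_succ, hC, ih, h1, Nat.add_right_comm]


end CAL
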