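import Pool.Agent.CAL.Defs

set_option autoImplicit false
set_option linter.unusedSectionVars false

/-!
Row CAL-Sub: the subloop of fixed points of a group of inner mappings.
-/

namespace CAL

variable {Q : Type} {mul : Q → Q → Q} {e : Q}

/-- Every element of the inner mapping group is an automorphism (`Subgroup.closure_induction`; for inverses
apply g to both sides). -/
theorem inn_aut (ha : IsAut mul) {g : Equiv.Perm Q} (hg : g ∈ inn mul) (u v : Q) :
    g (mul u v) = mul (g u) (g v) := by
  have key : ∀ g ∈ inn mul, ∀ u v, g (mul u v) = mul (g u) (g v) := by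
    intro g hg
    induction hg using Subgroup.closure_induction with
    | mem g hg =>
      rcases hg with ⟨x, y, h⟩ | ⟨x, y, h⟩ | ⟨x, h⟩
      · exact ha.innL x y g h
      · exact ha.innR x y g h
      · exact ha.innT x g h
    | one => intro u v; rfl
    | mul a b _ _ iha ihb =>
      intro u v
      rw [Equiv.Perm.mul_apply, Equiv.Perm.mul_apply, Equiv.Perm.mul_apply, ihb, iha]
    | inv a _ iha =>
      intro u v
      apply a.injective
      rw [app_inv, iha, app_inv, app_inv]
  exact key g hg u v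

theorem inn_e (h : IsLoop mul e) {g : Equiv.Perm Q} (hg : g ∈ inn mul) : g e = e := by
  have key : ∀ g ∈ inn mul, g e = e := by
    intro g hg
    induction hg using Subgroup.closure_induction with
    | mem g hg =>
      rcases hg with ⟨x, y, hh⟩ | ⟨x, y, hh⟩ | ⟨x, hh⟩
      · have h1 := hh e
        rw [h.mul_one] at h1
        apply mul_left_inj' h (a := mul y x)
        rw [h1, h.mul_one]
      · have h1 := hh e
        rw [h.one_mul] at h1
        apply mul_right_inj' h (a := mul x y)
        rw [h1, h.one_mul]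
      · have h1 := hh e
        rw [h.one_mul] at h1
        apply mul_left_inj' h (a := x)
        rw [h1, h.mul_one]
    | one => rfl
    | mul a b _ _ iha ihb => rw [Equiv.Perm.mul_apply, ihb, iha]
    | inv a _ iha =>
      apply a.injective
      rw [app_inv, iha]
  exact key g hg

/-- The fixed points of a subgroup `P` of the inner mapping group form a subloop. PROOF. Closed under
multiplication and both divisions because the elements of P are automorphisms (`inn_aut`): if a x = b with
a, b fixed then a (g x) = g b = b = a x, so g x = x. So it is a loop m'. IsAut m': a map f on the subloop with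
(y x) (f z) = y (x z) for all z of the subloop is the restriction of the map F of Q with the same property for
all z in Q (F = (L_{y x})⁻¹ L_y L_x), because of uniqueness of division, and F is an automorphism of Q by
`ha.innL`; same for the other two kinds. Last statement: every generator of `inn m'` is (in the same way) the
restriction of a generator of `inn mul`; so by `Subgroup.closure_induction` every g in `inn m'` satisfies:
for all x there is G in `inn mul` (even one G for all x) with (g x : Q) = G x. -/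
theorem fix_sub (h : IsLoop mul e) (ha : IsAut mul) (P : Subgroup (Equiv.Perm Q))
    (hP : P ≤ inn mul) :
    ∃ (m' : {x : Q // ∀ g ∈ P, g x = x} → {x : Q // ∀ g ∈ P, g x = x} →
        {x : Q // ∀ g ∈ P, g x = x}) (e' : {x : Q // ∀ g ∈ P, g x = x}),
      (∀ x y, (m' x y : Q) = mul x y) ∧ (e' : Q) = e ∧ IsLoop m' e' ∧ IsAut m' ∧
      (∀ x y : {x : Q // ∀ g ∈ P, g x = x}, y ∈ MulAction.orbit (inn m') x → (y : Q) ∈ MulAction.orbit (inn mul) (x : Q)) := by
  classical
  -- closure of the fixed points
  have hmul : ∀ x y : Q, (∀ g ∈ P, g x = x) → (∀ g ∈ P, g y = y) → ∀ g ∈ P, g (mul x y) = mul x y := by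
    intro x y hx hy g hg
    rw [inn_aut ha (hP hg), hx g hg, hy g hg]
  have hld : ∀ a b x : Q, (∀ g ∈ P, g a = a) → (∀ g ∈ P, g b = b) → mul a x = b → ∀ g ∈ P, g x = x := by
    intro a b x hfa hfb hx g hg
    apply mul_left_inj' h (a := a)
    conv_lhs => rw [← hfa g hg]
    rw [← inn_aut ha (hP hg), hx, hfb g hg]
  have hrd : ∀ a b x : Q, (∀ g ∈ P, g a = a) → (∀ g ∈ P, g b = b) → mul x a = b → ∀ g ∈ P, g x = x := by
    intro a b x hfa hfb hx g hg
    apply mul_right_inj' h (a := a)
    conv_lhs => rw [← hfa g hg]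
    rw [← inn_aut ha (hP hg), hx, hfb g hg]
  let S : Type := {x : Q // ∀ g ∈ P, g x = x}
  let m' : S → S → S := fun x y => ⟨mul x.1 y.1, hmul x.1 y.1 x.2 y.2⟩
  let e' : S := ⟨e, fun g hg => inn_e h (hP hg)⟩
  have hm' : ∀ x y : S, (m' x y).1 = mul x.1 y.1 := fun _ _ => rfl
  have hloop : IsLoop m' e' := by
    refine ⟨fun x => Subtype.ext (h.one_mul _), fun x => Subtype.ext (h.mul_one _), fun a b => ?_, fun a b => ?_⟩
    · obtain ⟨x, hx, hu⟩ := h.ldiv a.1 b.1
      refine ⟨⟨x, hld a.1 b.1 x a.2 b.2 hx⟩, Subtype.ext hx, fun y hy => Subtype.ext ?_⟩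
      exact hu y.1 (congrArg Subtype.val hy)
    · obtain ⟨x, hx, hu⟩ := h.rdiv a.1 b.1
      refine ⟨⟨x, hrd a.1 b.1 x a.2 b.2 hx⟩, Subtype.ext hx, fun y hy => Subtype.ext ?_⟩
      exact hu y.1 (congrArg Subtype.val hy)
  -- the extensions of the three kinds of maps
  have extL : ∀ x y : Q, ∀ z, mul (mul y x) (((Lp h x).trans ((Lp h y).trans (Lp h (mul y x)).symm)) z) =
      mul y (mul x z) := fun x y z => (Lp h (mul y x)).apply_symm_apply _
  have extR : ∀ x y : Q, ∀ z, mul (((Rp h x).trans ((Rp h y).trans (Rp h (mul x y)).symm)) z) (mul x y) =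
      mul (mul z x) y := fun x y z => (Rp h (mul x y)).apply_symm_apply _
  have extT : ∀ x : Q, ∀ z, mul x (((Rp h x).trans (Lp h x).symm) z) = mul z x :=
    fun x z => (Lp h x).apply_symm_apply _
  have resL : ∀ (x y : S) (f : S → S), (∀ z, m' (m' y x) (f z) = m' y (m' x z)) → ∀ z,
      (f z).1 = ((Lp h x.1).trans ((Lp h y.1).trans (Lp h (mul y.1 x.1)).symm)) z.1 := by
    intro x y f hf z
    apply mul_left_inj' h (a := mul y.1 x.1)
    rw [extL]
    exact congrArg Subtype.val (hf z)
  have resR : ∀ (x y : S) (f : S → S), (∀ z, m' (f z) (m' x y) = m' (m' z x) y) → ∀ z,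
      (f z).1 = ((Rp h x.1).trans ((Rp h y.1).trans (Rp h (mul x.1 y.1)).symm)) z.1 := by
    intro x y f hf z
    apply mul_right_inj' h (a := mul x.1 y.1)
    rw [extR]
    exact congrArg Subtype.val (hf z)
  have resT : ∀ (x : S) (f : S → S), (∀ z, m' x (f z) = m' z x) → ∀ z,
      (f z).1 = ((Rp h x.1).trans (Lp h x.1).symm) z.1 := by
    intro x f hf z
    apply mul_left_inj' h (a := x.1)
    rw [extT]
    exact congrArg Subtype.val (hf z)
  have haut : IsAut m' := by
    refine ⟨fun x y f hf u v => Subtype.ext ?_, fun x y f hf u v => Subtype.ext ?_,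
      fun x f hf u v => Subtype.ext ?_⟩
    · rw [resL x y f hf, hm', hm', resL x y f hf, resL x y f hf]
      exact ha.innL x.1 y.1 _ (extL x.1 y.1) u.1 v.1
    · rw [resR x y f hf, hm', hm', resR x y f hf, resR x y f hf]
      exact ha.innR x.1 y.1 _ (extR x.1 y.1) u.1 v.1
    · rw [resT x f hf, hm', hm', resT x f hf, resT x f hf]
      exact ha.innT x.1 _ (extT x.1) u.1 v.1
  refine ⟨m', e', hm', rfl, hloop, haut, fun x y hxy => ?_⟩
  have key : ∀ g ∈ inn m', ∃ G ∈ inn mul, ∀ z : S, (g z).1 = G z.1 := by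
    intro g hg
    induction hg using Subgroup.closure_induction with
    | mem g hg =>
      rcases hg with ⟨x, y, hf⟩ | ⟨x, y, hf⟩ | ⟨x, hf⟩
      · exact ⟨_, Subgroup.subset_closure (Or.inl ⟨x.1, y.1, extL x.1 y.1⟩), resL x y g hf⟩
      · exact ⟨_, Subgroup.subset_closure (Or.inr (Or.inl ⟨x.1, y.1, extR x.1 y.1⟩)), resR x y g hf⟩
      · exact ⟨_, Subgroup.subset_closure (Or.inr (Or.inr ⟨x.1, extT x.1⟩)), resT x g hf⟩
    | one => exact ⟨1, Subgroup.one_mem _, fun z => rfl⟩
    | mul a b _ _ iha ihb =>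
      obtain ⟨A, hA, hA'⟩ := iha
      obtain ⟨B, hB, hB'⟩ := ihb
      refine ⟨A * B, Subgroup.mul_mem _ hA hB, fun z => ?_⟩
      rw [Equiv.Perm.mul_apply, Equiv.Perm.mul_apply, hA', hB']
    | inv a _ iha =>
      obtain ⟨A, hA, hA'⟩ := iha
      refine ⟨A⁻¹, Subgroup.inv_mem _ hA, fun z => ?_⟩
      apply A.injective
      rw [app_inv, ← hA', app_inv]
  obtain ⟨g, hg, hgx⟩ := (mem_orbit_iff m' x y).1 hxy
  obtain ⟨G, hG, hG'⟩ := key g hg
  refine (mem_orbit_iff mul _ _).2 ⟨G, hG, ?_⟩
  rw [← hG', hgx]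

end CAL
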