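import Pool.Agent.CAL.Defs

set_option autoImplicit false
set_option linter.unusedSectionVars false

/-!
Row CAL-Syl: Sylow p-subgroups of the inner mapping group and their fixed points.
-/

namespace CAL

variable {Q : Type} [Fintype Q] [DecidableEq Q] {mul : Q → Q → Q} {e : Q}

/-- PROOF. P = image in `Equiv.Perm Q` of a Sylow p-subgroup of the finite group H = `inn mul`
(`Subgroup.map H.subtype`). If all elements of P fix x, then P is inside the stabilizer H_x and
`osz x = (H : H_x)` divides (H : P), which is prime to p. Conversely if p does not divide `osz x`, then the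
p-group P, acting on the orbit of x, has a fixed point in it (`IsPGroup.card_modEq_card_fixedPoints`).
If p divides |H|, then P is not trivial. -/
theorem exists_sylow (mul : Q → Q → Q) (p : ℕ) (hp : p.Prime) :
    ∃ P : Subgroup (Equiv.Perm Q), P ≤ inn mul ∧ IsPGroup p P ∧
      (∀ x, (∀ g ∈ P, g x = x) → ¬ p ∣ osz mul x) ∧
      (∀ x, ¬ p ∣ osz mul x → ∃ g ∈ inn mul, ∀ t ∈ P, t (g x) = g x) ∧
      (p ∣ Nat.card (inn mul) → P ≠ ⊥) := by
  have : Fact p.Prime := ⟨hp⟩
  obtain ⟨S⟩ : Nonempty (Sylow p (inn mul)) := inferInstance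
  refine ⟨(S : Subgroup (inn mul)).map (inn mul).subtype, Subgroup.map_subtype_le _,
    S.isPGroup'.map _, ?_, ?_, ?_⟩
  · intro x hx hdvd
    have h1 : osz mul x = (MulAction.stabilizer (inn mul) x).index := by
      rw [MulAction.index_stabilizer]
      rfl
    have h2 : (S : Subgroup (inn mul)) ≤ MulAction.stabilizer (inn mul) x := by
      intro g hg
      rw [MulAction.mem_stabilizer_iff]
      exact hx g.1 ⟨g, hg, rfl⟩
    have h3 : (MulAction.stabilizer (inn mul) x).index ∣ (S : Subgroup (inn mul)).index :=
      Subgroup.index_dvd_of_le h2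
    exact S.not_dvd_index (((h1 ▸ hdvd) : p ∣ (MulAction.stabilizer (inn mul) x).index).trans h3)
  · intro x hx
    have h1 : ¬ p ∣ Nat.card (MulAction.orbit (inn mul) x) := by
      rw [Nat.card_coe_set_eq]
      exact hx
    obtain ⟨y, hy⟩ := S.isPGroup'.nonempty_fixed_point_of_prime_not_dvd_card
      (MulAction.orbit (inn mul) x) h1
    obtain ⟨g, hg⟩ := y.2
    refine ⟨g.1, g.2, ?_⟩
    rintro t ⟨s, hs, rfl⟩
    have h2 := hy ⟨s, hs⟩
    have h3 : (s : Equiv.Perm Q) (y : Q) = (y : Q) := congrArg Subtype.val h2
    have h4 : (g : Equiv.Perm Q) x = (y : Q) := hg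
    rw [h4]
    exact h3
  · intro hdvd hbot
    have h1 : (S : Subgroup (inn mul)) = ⊥ :=
      (Subgroup.map_eq_bot_iff_of_injective _ (inn mul).subtype_injective).1 hbot
    have h2 := S.not_dvd_index
    rw [h1, Subgroup.index_bot] at h2
    exact h2 hdvd

/-- `IsPGroup.card_modEq_card_fixedPoints` for the action of P on Q. -/
theorem card_fix (p : ℕ) (hp : p.Prime) (P : Subgroup (Equiv.Perm Q)) (hP : IsPGroup p P) :
    Nat.card {x : Q // ∀ g ∈ P, g x = x} ≡ Fintype.card Q [MOD p] := by
  have : Fact p.Prime := ⟨hp⟩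
  have h := hP.card_modEq_card_fixedPoints Q
  rw [Nat.card_eq_fintype_card (α := Q)] at h
  refine Nat.ModEq.trans ?_ h.symm
  have h2 : Nat.card {x : Q // ∀ g ∈ P, g x = x} = Nat.card (MulAction.fixedPoints P Q) := by
    refine Nat.card_congr (Equiv.subtypeEquivRight fun x => ?_)
    constructor
    · intro hx g
      exact hx g.1 g.2
    · intro hx g hg
      exact hx ⟨g, hg⟩
  rw [h2]

/-- If all orbits of `inn mul` have less than p elements, then p does not divide its order: otherwise it has
an element g of order p (Cauchy); g moves some x; the orbit of x under the powers of g has p elements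
(its length is the index of a proper subgroup of the group generated by g, of prime order p) and is contained in
the orbit of x under `inn mul`. -/
theorem inn_prime_to (mul : Q → Q → Q) (p : ℕ) (hp : p.Prime) (hs : ∀ x, osz mul x < p) :
    ¬ p ∣ Nat.card (inn mul) := by
  have : Fact p.Prime := ⟨hp⟩
  intro hdvd
  obtain ⟨g, hg⟩ := exists_prime_orderOf_dvd_card' p hdvd
  have hg1 : g ≠ 1 := by
    intro h
    rw [h, orderOf_one] at hg
    exact hp.one_lt.ne hg
  have hx : ∃ x : Q, (g : Equiv.Perm Q) x ≠ x := by
    by_contra hcon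
    push Not at hcon
    apply hg1
    apply Subtype.ext
    apply Equiv.ext
    intro x
    exact hcon x
  obtain ⟨x, hx⟩ := hx
  have h1 : (MulAction.orbit (Subgroup.zpowers g) x).ncard = p := by
    have h2 : (MulAction.stabilizer (Subgroup.zpowers g) x).index ∣ p := by
      have h3 := (MulAction.stabilizer (Subgroup.zpowers g) x).index_dvd_card
      rwa [Nat.card_zpowers, hg] at h3
    rw [← MulAction.index_stabilizer]
    rcases (Nat.dvd_prime hp).1 h2 with h4 | h4
    · exfalso
      rw [Subgroup.index_eq_one] at h4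
      have h5 : (⟨g, Subgroup.mem_zpowers g⟩ : Subgroup.zpowers g) ∈
          MulAction.stabilizer (Subgroup.zpowers g) x := by
        rw [h4]
        trivial
      exact hx (MulAction.mem_stabilizer_iff.1 h5)
    · exact h4
  have h6 : MulAction.orbit (Subgroup.zpowers g) x ⊆ MulAction.orbit (inn mul) x := by
    rintro y ⟨t, rfl⟩
    exact ⟨t.1, rfl⟩
  have h7 := Set.ncard_le_ncard h6 (Set.toFinite _)
  rw [h1] at h7
  exact absurd (hs x) (not_lt.2 h7)

end CAL
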