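import Pool.Agent.CAL.Core
import Pool.Agent.CAL.Cnt2
import Pool.Agent.CAL.PA
import Pool.Agent.CAL.Sub
import Pool.Agent.CAL.Syl
import Pool.Agent.CAL.Orb

set_option autoImplicit false
set_option linter.unusedSectionVars false
set_option linter.style.haveILetI false

namespace CAL

variable {Q : Type} [Fintype Q] [DecidableEq Q] {mul : Q → Q → Q} {e : Q}

theorem pw_sub {S : Q → Prop} {m' : {x : Q // S x} → {x : Q // S x} → {x : Q // S x}}
    {e' : {x : Q // S x}} (hm : ∀ x y, (m' x y : Q) = mul x y) (he : (e' : Q) = e)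
    (x : {x : Q // S x}) (k : ℕ) : ((pw m' e' x k : {x : Q // S x}) : Q) = pw mul e (x : Q) k := by
  induction k with
  | zero => exact he
  | succ k ih => rw [pw_succ, pw_succ, hm, ih]

/-- Theorem A for p not dividing the order of the inner mapping group. -/
theorem thmA0 (h : IsLoop mul e) (hpa : PowAssoc mul e) (p : ℕ) (hp : p.Prime)
    (hdvd : p ∣ Fintype.card Q) (hs : ∀ x, osz mul x + 2 ≤ p) :
    ∃ x, x ≠ e ∧ pw mul e x p = e := by
  by_contra hcon
  push Not at hcon
  have hno : ∀ x, pw mul e x p = e → x = e := fun x hx => by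
    by_contra hne
    exact hcon x hne hx
  have hH : ¬ p ∣ Nat.card (inn mul) := inn_prime_to mul p hp fun x => by
    have := hs x
    omega
  obtain ⟨K, hK, hsum⟩ := core h hpa p hp hdvd hH hno
  haveI : Nonempty Q := ⟨e⟩
  exact count_max p (osz mul) (osz_pos mul) hs K hK hsum

/-- Theorem A. -/
theorem thmA (h : IsLoop mul e) (ha : IsAut mul) (p : ℕ) (hp : p.Prime)
    (hdvd : p ∣ Fintype.card Q) (hs : ∀ x, p ∣ osz mul x ∨ osz mul x + 2 ≤ p) :
    ∃ x, x ≠ e ∧ pw mul e x p = e := by
  classical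
  obtain ⟨P, hP, hPp, hfix, -, -⟩ := exists_sylow mul p hp
  obtain ⟨m', e', hm, he, h', ha', horb⟩ := fix_sub h ha P hP
  have hcard := card_fix p hp P hPp
  rw [Nat.card_eq_fintype_card] at hcard
  have hdvd' : p ∣ Fintype.card {x : Q // ∀ g ∈ P, g x = x} :=
    (Nat.modEq_zero_iff_dvd).1 (hcard.trans ((Nat.modEq_zero_iff_dvd).2 hdvd))
  have hs' : ∀ x, osz m' x + 2 ≤ p := by
    intro x
    have h1 : osz m' x ≤ osz mul (x : Q) := by
      unfold osz
      have : (Subtype.val '' MulAction.orbit (inn m') x) ⊆ MulAction.orbit (inn mul) (x : Q) := by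
        rintro _ ⟨y, hy, rfl⟩
        exact horb x y hy
      calc (MulAction.orbit (inn m') x).ncard
          = (Subtype.val '' MulAction.orbit (inn m') x).ncard :=
            (Set.ncard_image_of_injective _ Subtype.val_injective).symm
        _ ≤ _ := Set.ncard_le_ncard this (Set.toFinite _)
    have h2 := (hs (x : Q)).resolve_left (hfix x x.2)
    omega
  obtain ⟨x, hx, hxp⟩ := thmA0 h' (powAssoc_of_aut h' ha') p hp hdvd' hs'
  refine ⟨x, fun hxe => hx (Subtype.ext (hxe.trans he.symm)), ?_⟩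
  rw [← pw_sub (m' := m') (e' := e') hm he x p, hxp, he]

/-- Theorem B. -/
theorem thmB (n : ℕ) : ∀ {Q : Type} [Fintype Q] {mul : Q → Q → Q} {e : Q},
    Fintype.card Q = n → IsLoop mul e → IsAut mul → ∀ p : ℕ, p.Prime → p ∣ Fintype.card Q →
    2 * Fintype.card Q < p * Nat.card (MulAction.orbitRel.Quotient (inn mul) Q) →
    ∃ x, x ≠ e ∧ pw mul e x p = e := by
  induction n using Nat.strong_induction_on with
  | _ n ih =>
  intro Q _ mul e hn h ha p hp hdvd hk
  classical
  haveI : Nonempty Q := ⟨e⟩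
  by_cases hH : p ∣ Nat.card (inn mul)
  · obtain ⟨P, hP, hPp, -, hmeet, hbot⟩ := exists_sylow mul p hp
    obtain ⟨m', e', hm, he, h', ha', horb⟩ := fix_sub h ha P hP
    have hcard := card_fix p hp P hPp
    rw [Nat.card_eq_fintype_card] at hcard
    have hdvd' : p ∣ Fintype.card {x : Q // ∀ g ∈ P, g x = x} :=
      (Nat.modEq_zero_iff_dvd).1 (hcard.trans ((Nat.modEq_zero_iff_dvd).2 hdvd))
    have hlt : Fintype.card {x : Q // ∀ g ∈ P, g x = x} < Fintype.card Q := by
      obtain ⟨⟨g, hg⟩, hg1⟩ := Subgroup.ne_bot_iff_exists_ne_one.1 (hbot hH)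
      have hmove : ∃ x, g x ≠ x := by
        by_contra hall
        push Not at hall
        apply hg1
        apply Subtype.ext
        ext x
        exact hall x
      obtain ⟨x, hx⟩ := hmove
      exact Fintype.card_subtype_lt (x := x) fun hall => hx (hall g hg)
    have horbs := orbits_sub (mul := mul) p hp (fun x => ∀ g ∈ P, g x = x) m' horb
      (fun x hx => hmeet x hx)
    rw [Nat.card_eq_fintype_card (α := {x : Q // ∀ g ∈ P, g x = x})] at horbs
    obtain ⟨x, hx, hxp⟩ := ih _ (hn ▸ hlt) rfl h' ha' p hp hdvd' (by omega)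
    refine ⟨x, fun hxe => hx (Subtype.ext (hxe.trans he.symm)), ?_⟩
    rw [← pw_sub (m' := m') (e' := e') hm he x p, hxp, he]
  · by_contra hcon
    push Not at hcon
    have hno : ∀ x, pw mul e x p = e → x = e := fun x hx => by
      by_contra hne
      exact hcon x hne hx
    obtain ⟨K, hK, hsum⟩ := core h (powAssoc_of_aut h ha) p hp hdvd hH hno
    have h1 := count_avg p hp.two_le (osz mul) (osz_pos mul) K hK hsum
    rw [sum_inv_osz] at h1
    have h2 : (2 : ℝ) * (Fintype.card Q : ℝ) <
        (p : ℝ) * (Nat.card (MulAction.orbitRel.Quotient (inn mul) Q) : ℝ) := by exact_mod_cast hk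
    linarith

end CAL
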