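import Pool.Agent.CAL.Defs
import Pool.Agent.CAL.Spec

set_option autoImplicit false

/-!
Row CAL-Root: the traces of the powers of a permutation of finite order on the image of an idempotent.

PROOF. rho (g * g') = rho g' * rho g, so rho (g^k) = (rho g)^k and (rho g)^N = 1. For j < N put
P_j = (1/N) Σ_{i<N} ζ^(-ij) (rho g)^i. Then P_j P_j = P_j [ (rho g) P_j = ζ^j P_j, so
P_j P_j = (1/N) Σ_i ζ^(-ij) (rho g)^i P_j = P_j ], Σ_{j<N} ζ^(kj) P_j = (rho g)^k
[(1/N) Σ_i (Σ_j ζ^((k-i)j)) (rho g)^i, inner sum N if i = k mod N, else 0], and P_j commutes with E.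
So E P_j is idempotent, its trace is a natural number d_j (`trace_idem`), and
trace (E * rho (g^k)) = Σ_j ζ^(kj) trace (E P_j).
(Alternative without negative exponents: use ζ^((N-1) i j) or (ζ⁻¹)^(ij).)
-/

namespace CAL

open Matrix

theorem rho_mul {Q : Type} [Fintype Q] [DecidableEq Q] (g g' : Equiv.Perm Q) :
    rho g * rho g' = rho (g' * g) := by
  ext a b
  rw [Matrix.mul_apply]
  unfold rho
  simp only [ite_mul, one_mul, zero_mul, Finset.sum_ite_eq', Finset.mem_univ, if_true]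
  rfl

theorem rho_one {Q : Type} [Fintype Q] [DecidableEq Q] : rho (1 : Equiv.Perm Q) = 1 := by
  ext a b
  unfold rho
  rw [Equiv.Perm.one_apply, Matrix.one_apply]
  by_cases h : a = b
  · rw [if_pos h, if_pos h.symm]
  · rw [if_neg h, if_neg (fun h' => h h'.symm)]

theorem rho_pow {Q : Type} [Fintype Q] [DecidableEq Q] (g : Equiv.Perm Q) (k : ℕ) :
    rho g ^ k = rho (g ^ k) := by
  induction k with
  | zero => rw [pow_zero, pow_zero, rho_one]
  | succ k ih => rw [pow_succ, ih, rho_mul, pow_succ']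

theorem root_trace {Q : Type} [Fintype Q] [DecidableEq Q] (E : Matrix Q Q ℂ) (hE : E * E = E)
    (g : Equiv.Perm Q) (N : ℕ) (hN : 0 < N) (hg : g ^ N = 1) (hcomm : E * rho g = rho g * E)
    (ζ : ℂ) (hζ : IsPrimitiveRoot ζ N) :
    ∃ d : ℕ → ℕ, ∀ k : ℕ, (E * rho (g ^ k)).trace = ∑ j ∈ Finset.range N, (d j : ℂ) * ζ ^ (k * j) := by
  have hR : rho g ^ N = 1 := by rw [rho_pow, hg, rho_one]
  set R := rho g with hRdef
  have hN0 : (N : ℂ) ≠ 0 := by exact_mod_cast hN.ne'
  have hζN : ζ ^ N = 1 := hζ.pow_eq_one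
  have hζ0 : ζ ≠ 0 := hζ.ne_zero hN.ne'
  set ω : ℂ := ζ⁻¹ with hω
  have hωN : ω ^ N = 1 := by rw [hω, inv_pow, hζN, inv_one]
  have hωζ : ω * ζ = 1 := inv_mul_cancel₀ hζ0
  let Pj : ℕ → Matrix Q Q ℂ := fun j => (N : ℂ)⁻¹ • ∑ i ∈ Finset.range N, ω ^ (i * j) • R ^ i
  have hPj : ∀ j, Pj j = (N : ℂ)⁻¹ • ∑ i ∈ Finset.range N, ω ^ (i * j) • R ^ i := fun _ => rfl
  -- R P_j = ζ^j P_j
  have h1 : ∀ j, R * Pj j = ζ ^ j • Pj j := by
    intro j
    rw [hPj, Matrix.mul_smul, smul_comm (ζ ^ j) ((N : ℂ)⁻¹), Finset.mul_sum]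
    congr 1
    rw [Finset.smul_sum]
    have e1 : ∀ i ∈ Finset.range N, R * ω ^ (i * j) • R ^ i =
        (fun i => ζ ^ j • (ω ^ (i * j) • R ^ i)) (i + 1) := by
      intro i _
      simp only
      rw [Matrix.mul_smul, smul_smul, ← pow_succ']
      congr 1
      rw [add_mul, one_mul, pow_add, mul_comm (ω ^ (i * j)) (ω ^ j), ← mul_assoc, ← mul_pow,
        mul_comm ζ ω, hωζ, one_pow, one_mul]
    rw [Finset.sum_congr rfl e1]
    have e2 := Finset.sum_range_succ' (fun i => ζ ^ j • (ω ^ (i * j) • R ^ i)) N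
    have e3 := Finset.sum_range_succ (fun i => ζ ^ j • (ω ^ (i * j) • R ^ i)) N
    rw [e2] at e3
    have e4 : ζ ^ j • (ω ^ (N * j) • R ^ N) = ζ ^ j • (ω ^ (0 * j) • R ^ 0) := by
      rw [hR, pow_mul, hωN, one_pow, zero_mul, pow_zero, pow_zero]
    rw [e4] at e3
    exact add_right_cancel e3
  have h2 : ∀ k j, R ^ k * Pj j = ζ ^ (k * j) • Pj j := by
    intro k j
    induction k with
    | zero => rw [pow_zero, one_mul, zero_mul, pow_zero, one_smul]
    | succ k ih =>
      rw [pow_succ', mul_assoc, ih, Matrix.mul_smul, h1, smul_smul, ← pow_add]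
      congr 2
      ring
  have h3 : ∀ j, Pj j * Pj j = Pj j := by
    intro j
    have e1 : Pj j * Pj j = (N : ℂ)⁻¹ • ∑ i ∈ Finset.range N, ω ^ (i * j) • (R ^ i * Pj j) := by
      conv_lhs => rw [hPj j]
      rw [← hPj j, Matrix.smul_mul, Finset.sum_mul]
      congr 1
      refine Finset.sum_congr rfl fun i _ => ?_
      rw [Matrix.smul_mul]
    rw [e1]
    have e2 : ∀ i ∈ Finset.range N, ω ^ (i * j) • (R ^ i * Pj j) = Pj j := by
      intro i _
      rw [h2, smul_smul, ← mul_pow, hωζ, one_pow, one_smul]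
    rw [Finset.sum_congr rfl e2, Finset.sum_const, Finset.card_range]
    rw [← Nat.cast_smul_eq_nsmul ℂ, smul_smul, inv_mul_cancel₀ hN0, one_smul]
  have h4 : ∑ j ∈ Finset.range N, Pj j = 1 := by
    have e1 : ∑ j ∈ Finset.range N, Pj j =
        (N : ℂ)⁻¹ • ∑ i ∈ Finset.range N, (∑ j ∈ Finset.range N, (ω ^ i) ^ j) • R ^ i := by
      simp only [hPj]
      rw [← Finset.smul_sum, Finset.sum_comm]
      congr 1
      refine Finset.sum_congr rfl fun i _ => ?_
      rw [Finset.sum_smul]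
      refine Finset.sum_congr rfl fun j _ => ?_
      rw [pow_mul]
    rw [e1]
    have e2 : ∀ i ∈ Finset.range N, (∑ j ∈ Finset.range N, (ω ^ i) ^ j) • R ^ i =
        if i = 0 then (N : ℂ) • (1 : Matrix Q Q ℂ) else 0 := by
      intro i hi
      split_ifs with h
      · subst h
        simp
      · have hne : ω ^ i ≠ 1 := by
          intro h5
          have h6 : ζ ^ i = 1 := by
            have := congrArg (fun z => z * ζ ^ i) h5
            simp only [one_mul] at this
            rw [← mul_pow, hωζ, one_pow] at this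
            exact this.symm
          exact hζ.pow_ne_one_of_pos_of_lt h (Finset.mem_range.1 hi) h6
        have h7 := mul_neg_geom_sum (ω ^ i) N
        rw [← pow_mul, mul_comm i N, pow_mul, hωN, one_pow, sub_self] at h7
        rcases mul_eq_zero.1 h7 with h8 | h8
        · exact absurd (sub_eq_zero.1 h8).symm hne
        · rw [h8, zero_smul]
    rw [Finset.sum_congr rfl e2, Finset.sum_ite_eq' (Finset.range N) 0,
      if_pos (Finset.mem_range.2 hN), smul_smul, inv_mul_cancel₀ hN0, one_smul]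
  -- commutation
  have h5 : ∀ k, E * R ^ k = R ^ k * E := by
    intro k
    exact (Commute.pow_right (show Commute E R from hcomm) k)
  have h6 : ∀ j, E * Pj j = Pj j * E := by
    intro j
    rw [hPj, Matrix.mul_smul, Matrix.smul_mul, Finset.mul_sum, Finset.sum_mul]
    congr 1
    refine Finset.sum_congr rfl fun i _ => ?_
    rw [Matrix.mul_smul, Matrix.smul_mul, h5]
  have h7 : ∀ j, (E * Pj j) * (E * Pj j) = E * Pj j := by
    intro j
    calc (E * Pj j) * (E * Pj j) = E * (Pj j * E) * Pj j := by simp only [mul_assoc]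
      _ = E * (E * Pj j) * Pj j := by rw [h6]
      _ = (E * E) * (Pj j * Pj j) := by simp only [mul_assoc]
      _ = E * Pj j := by rw [hE, h3]
  choose d hd _ using fun j => trace_idem (E * Pj j) (h7 j)
  refine ⟨d, fun k => ?_⟩
  have h8 : E * rho (g ^ k) = ∑ j ∈ Finset.range N, ζ ^ (k * j) • (E * Pj j) := by
    rw [← rho_pow, ← hRdef]
    calc E * R ^ k = E * (R ^ k * ∑ j ∈ Finset.range N, Pj j) := by rw [h4, mul_one]
      _ = _ := by
        rw [Finset.mul_sum, Finset.mul_sum]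
        refine Finset.sum_congr rfl fun j _ => ?_
        rw [h2, Matrix.mul_smul]
  rw [h8, Matrix.trace_sum]
  refine Finset.sum_congr rfl fun j _ => ?_
  rw [Matrix.trace_smul, hd, smul_eq_mul, mul_comm]

end CAL
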