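import Pool.Agent.CAL.Fam
import Pool.Agent.CAL.Root
import Pool.Agent.CAL.Arith

set_option autoImplicit false
set_option linter.unusedSectionVars false

/-!
Row CAL-GalA: the averaging operators `T_k`.
-/

namespace CAL

open Matrix

variable {Q : Type} [Fintype Q] [DecidableEq Q] {mul : Q → Q → Q} {e : Q}

/-- From `root_trace`, `trace_rho`, `comm_R` for `g = Rp h x`: with `F = (1/f) Σ_j d_j X^j`. -/
theorem gal_poly_exists (h : IsLoop mul e) {E : Matrix Q Q ℂ} {f : ℕ} (hE : Sph mul E f)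
    (N : ℕ) (hN : 0 < N) (x : Q) (hx : Rp h x ^ N = 1) (ζ : ℂ) (hζ : IsPrimitiveRoot ζ N) :
    ∃ F : Polynomial ℚ, ∀ k : ℕ, Polynomial.aeval (ζ ^ k) F =
      ((Fintype.card Q : ℂ))⁻¹ * ∑ b, phi E f e (ld h b ((Rp h x ^ k) b)) := by
  obtain ⟨d, hd⟩ := root_trace E hE.idem (Rp h x) N hN hx (comm_R h hE x) ζ hζ
  have hn : (Fintype.card Q : ℂ) ≠ 0 := by
    have : 0 < Fintype.card Q := Fintype.card_pos_iff.2 ⟨e⟩
    exact_mod_cast this.ne'
  have hf : (f : ℂ) ≠ 0 := by exact_mod_cast hE.pos.ne'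
  refine ⟨∑ j ∈ Finset.range N, Polynomial.C ((d j : ℚ) / (f : ℚ)) * Polynomial.X ^ j, fun k => ?_⟩
  rw [map_sum]
  have h1 : ∀ j ∈ Finset.range N, (Polynomial.aeval (ζ ^ k))
      (Polynomial.C ((d j : ℚ) / (f : ℚ)) * Polynomial.X ^ j) = (f : ℂ)⁻¹ * ((d j : ℂ) * ζ ^ (k * j)) := by
    intro j _
    rw [map_mul, Polynomial.aeval_C, map_pow, Polynomial.aeval_X, ← pow_mul]
    rw [eq_ratCast]
    push_cast
    field_simp
  rw [Finset.sum_congr rfl h1, ← Finset.mul_sum, ← hd k, trace_rho h hE]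
  field_simp

/-- `T_k' T_k phi_i = phi_i`. PROOF. Let k k' = 1 mod N and let F y be the polynomial of
`gal_poly_exists` for y; note that F y at ζ^1 is phi y (because b \ (b y) = y). By
`gal_poly_exists` for x with exponent k': aeval (ζ^k') (F x) = (1/n) Σ_b phi (y_b) = (1/n) Σ_b aeval ζ (F y_b),
y_b = b \ R_x^k'(b). So the rational polynomial (F x)(X^k') - (1/n) Σ_b F y_b vanishes at ζ; by `gal_poly`
it vanishes at ζ^k: (1/n) Σ_b aeval (ζ^k) (F y_b) = aeval (ζ^(k k')) (F x) = aeval ζ (F x) = phi x. -/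
theorem tk_tk (h : IsLoop mul e) {E : Matrix Q Q ℂ} {f : ℕ} (hE : Sph mul E f)
    (N : ℕ) (hN : 0 < N) (hR : ∀ x, Rp h x ^ N = 1) (ζ : ℂ) (hζ : IsPrimitiveRoot ζ N)
    (k k' : ℕ) (hk : k.Coprime N) (hkk : k * k' ≡ 1 [MOD N]) (x : Q) :
    ((Fintype.card Q : ℂ))⁻¹ * ∑ b, (((Fintype.card Q : ℂ))⁻¹ *
      ∑ c, phi E f e (ld h c ((Rp h (ld h b ((Rp h x ^ k') b)) ^ k) c))) = phi E f e x := by
  choose F hF using fun y : Q => gal_poly_exists h hE N hN y (hR y) ζ hζ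
  have hn : (Fintype.card Q : ℂ) ≠ 0 := by
    have : 0 < Fintype.card Q := Fintype.card_pos_iff.2 ⟨e⟩
    exact_mod_cast this.ne'
  have hF1 : ∀ y : Q, Polynomial.aeval ζ (F y) = phi E f e y := by
    intro y
    have h1 := hF y 1
    rw [pow_one] at h1
    rw [h1]
    have h2 : ∀ b : Q, phi E f e (ld h b ((Rp h y ^ 1) b)) = phi E f e y := by
      intro b
      rw [pow_one, Rp_apply, ld_mul]
    rw [Finset.sum_congr rfl fun b _ => h2 b, Finset.sum_const, Finset.card_univ, nsmul_eq_mul,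
      inv_mul_cancel_left₀ hn]
  let y : Q → Q := fun b => ld h b ((Rp h x ^ k') b)
  let q : Polynomial ℚ := (F x).comp (Polynomial.X ^ k') -
    Polynomial.C ((Fintype.card Q : ℚ)⁻¹) * ∑ b, F (y b)
  have hq : ∀ z : ℂ, Polynomial.aeval z q = Polynomial.aeval (z ^ k') (F x) -
      ((Fintype.card Q : ℂ))⁻¹ * ∑ b, Polynomial.aeval z (F (y b)) := by
    intro z
    simp only [q]
    rw [map_sub, map_mul, Polynomial.aeval_C, map_sum, Polynomial.aeval_comp, map_pow,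
      Polynomial.aeval_X, eq_ratCast]
    push_cast
    rfl
  have h0 : Polynomial.aeval ζ q = 0 := by
    rw [hq ζ, hF x k']
    rw [Finset.sum_congr rfl fun b _ => hF1 (y b)]
    exact sub_self _
  have h1 := gal_poly N hN ζ hζ k hk q h0
  rw [hq, ← pow_mul] at h1
  have h2 : ζ ^ (k * k') = ζ := by
    have h3 : ζ ^ (k * k') = ζ ^ 1 := by
      rw [pow_eq_pow_mod (k * k') hζ.pow_eq_one, hkk, ← pow_eq_pow_mod 1 hζ.pow_eq_one]
    rw [h3, pow_one]
  rw [h2, hF1 x, sub_eq_zero] at h1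
  rw [h1]
  congr 1
  refine Finset.sum_congr rfl fun b _ => ?_
  rw [hF (y b) k]

end CAL
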