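import Pool.Agent.CAL.Defs

set_option autoImplicit false
set_option linter.unusedSectionVars false

/-!
Row CAL-K1: the algebra of translation-invariant kernels of a finite loop (Johnson-Smith).
-/

namespace CAL

open Matrix

variable {Q : Type} [Fintype Q] [DecidableEq Q] {mul : Q → Q → Q} {e : Q}

theorem inv_one (h : IsLoop mul e) : Inv mul (1 : Matrix Q Q ℂ) := by
  refine ⟨fun x a b => ?_, fun x a b => ?_⟩
  · simp only [Matrix.one_apply]
    congr 1
    exact propext ⟨fun hh => mul_left_inj' h hh, fun hh => by rw [hh]⟩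
  · simp only [Matrix.one_apply]
    congr 1
    exact propext ⟨fun hh => mul_right_inj' h hh, fun hh => by rw [hh]⟩

theorem inv_ones : Inv mul (ones Q) := ⟨fun _ _ _ => rfl, fun _ _ _ => rfl⟩

theorem inv_add {M N : Matrix Q Q ℂ} (hM : Inv mul M) (hN : Inv mul N) : Inv mul (M + N) :=
  ⟨fun x a b => by rw [Matrix.add_apply, Matrix.add_apply, hM.1, hN.1],
   fun x a b => by rw [Matrix.add_apply, Matrix.add_apply, hM.2, hN.2]⟩

theorem inv_smul (c : ℂ) {M : Matrix Q Q ℂ} (hM : Inv mul M) : Inv mul (c • M) :=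
  ⟨fun x a b => by rw [Matrix.smul_apply, Matrix.smul_apply, hM.1],
   fun x a b => by rw [Matrix.smul_apply, Matrix.smul_apply, hM.2]⟩

theorem inv_conjT {M : Matrix Q Q ℂ} (hM : Inv mul M) : Inv mul Mᴴ :=
  ⟨fun x a b => by rw [Matrix.conjTranspose_apply, Matrix.conjTranspose_apply, hM.1],
   fun x a b => by rw [Matrix.conjTranspose_apply, Matrix.conjTranspose_apply, hM.2]⟩

theorem inv_transpose {M : Matrix Q Q ℂ} (hM : Inv mul M) : Inv mul Mᵀ :=
  ⟨fun x a b => by rw [Matrix.transpose_apply, Matrix.transpose_apply, hM.1],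
   fun x a b => by rw [Matrix.transpose_apply, Matrix.transpose_apply, hM.2]⟩

theorem inv_mul (h : IsLoop mul e) {M N : Matrix Q Q ℂ} (hM : Inv mul M) (hN : Inv mul N) :
    Inv mul (M * N) := by
  refine ⟨fun x a b => ?_, fun x a b => ?_⟩
  · rw [Matrix.mul_apply, Matrix.mul_apply, ← Equiv.sum_comp (Lp h x)]
    exact Finset.sum_congr rfl fun c _ => by rw [Lp_apply, hM.1, hN.1]
  · rw [Matrix.mul_apply, Matrix.mul_apply, ← Equiv.sum_comp (Rp h x)]
    exact Finset.sum_congr rfl fun c _ => by rw [Rp_apply, hM.2, hN.2]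

/-- left invariance: `M (b, a) = M (a \ b, e)` and `M (a, b) = M (e, a \ b)`. -/
theorem inv_left (h : IsLoop mul e) {M : Matrix Q Q ℂ} (hM : Inv mul M) (a b : Q) :
    M b a = M (ld h a b) e := by
  have := hM.1 a (ld h a b) e
  rwa [mul_ld h, h.mul_one] at this

theorem inv_left' (h : IsLoop mul e) {M : Matrix Q Q ℂ} (hM : Inv mul M) (a b : Q) :
    M a b = M e (ld h a b) := by
  have := hM.1 a e (ld h a b)
  rwa [mul_ld h, h.mul_one] at this

/-- The algebra of invariant kernels is commutative. -/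
theorem inv_comm (h : IsLoop mul e) {M N : Matrix Q Q ℂ} (hM : Inv mul M) (hN : Inv mul N) :
    M * N = N * M := by
  -- both products are invariant, so it is enough to compare the entries (e, b)
  have key : ∀ b, (M * N) e b = (N * M) e b := by
    intro b
    rw [Matrix.mul_apply, Matrix.mul_apply]
    -- the bijection c ↦ c \ b
    have hbij : Function.Bijective (fun c => ld h c b) := by
      refine (Finite.injective_iff_bijective).1 ?_
      intro c c' hcc
      have h1 := mul_ld h c b
      have h2 := mul_ld h c' b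
      have hcc' : ld h c b = ld h c' b := hcc
      rw [hcc'] at h1
      exact mul_right_inj' h (h1.trans h2.symm)
    rw [← Equiv.sum_comp (Equiv.ofBijective _ hbij) (fun c => N e c * M c b)]
    refine Finset.sum_congr rfl fun c _ => ?_
    change M e c * N c b = N e (ld h c b) * M (ld h c b) b
    have h1 : N c b = N e (ld h c b) := inv_left' h hN c b
    have h2 : M (ld h c b) b = M e c := by
      have := hM.2 (ld h c b) e c
      rwa [h.one_mul, mul_ld h] at this
    rw [h1, h2, mul_comm]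
  ext a b
  rw [inv_left' h (inv_mul h hM hN) a b, inv_left' h (inv_mul h hN hM) a b, key]

/-- Invariance under all inner mappings. -/
theorem inv_inn {M : Matrix Q Q ℂ} (hM : Inv mul M) {g : Equiv.Perm Q}
    (hg : g ∈ inn mul) (a b : Q) : M (g a) (g b) = M a b := by
  unfold inn at hg
  induction hg using Subgroup.closure_induction generalizing a b with
  | mem f hf =>
    rcases hf with ⟨x, y, hf⟩ | ⟨x, y, hf⟩ | ⟨x, hf⟩
    · rw [← hM.1 (mul y x), hf, hf, hM.1, hM.1]
    · rw [← hM.2 (mul x y), hf, hf, hM.2, hM.2]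
    · rw [← hM.1 x, hf, hf, hM.2]
  | one => rfl
  | mul f g _ _ ihf ihg => rw [Equiv.Perm.mul_apply, Equiv.Perm.mul_apply, ihf, ihg]
  | inv f _ ih =>
    have := ih (f⁻¹ a) (f⁻¹ b)
    rw [app_inv, app_inv] at this
    exact this.symm

/-- A class function gives an invariant kernel. -/
theorem inv_of_class (h : IsLoop mul e) (μ : Q → ℂ) (hμ : ∀ g ∈ inn mul, ∀ z, μ (g z) = μ z) :
    Inv mul (fun b a => μ (ld h a b)) := by
  have hin : ∀ f ∈ innSet mul, f ∈ inn mul := fun f hf => Subgroup.subset_closure hf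
  -- left translations
  have hL : ∀ x a b, μ (ld h (mul x a) (mul x b)) = μ (ld h a b) := by
    intro x a b
    -- x (a z) = (x a) (f z) with f the inner map, z = a \ b
    have hf : ((Lp h (mul x a))⁻¹ * (Lp h x * Lp h a)) ∈ innSet mul := by
      refine Or.inl ⟨a, x, fun z => ?_⟩
      change Lp h (mul x a) ((Lp h (mul x a))⁻¹ (Lp h x (Lp h a z))) = _
      rw [app_inv]
      rfl
    have := hμ _ (hin _ hf) (ld h a b)
    rw [← this]
    congr 1
    change (Lp h (mul x a)).symm (mul x b) = (Lp h (mul x a)).symm (mul x (mul a (ld h a b)))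
    rw [mul_ld h]
  -- right translations
  have hR : ∀ x a b, μ (ld h (mul a x) (mul b x)) = μ (ld h a b) := by
    intro x a b
    have hT : ∀ c, ((Lp h c)⁻¹ * Rp h c) ∈ innSet mul := by
      intro c
      refine Or.inr (Or.inr ⟨c, fun z => ?_⟩)
      change Lp h c ((Lp h c)⁻¹ (Rp h c z)) = _
      rw [app_inv]
      rfl
    have hRR : ((Rp h (mul a x))⁻¹ * (Rp h x * Rp h a)) ∈ innSet mul := by
      refine Or.inr (Or.inl ⟨a, x, fun z => ?_⟩)
      change Rp h (mul a x) ((Rp h (mul a x))⁻¹ (Rp h x (Rp h a z))) = _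
      rw [app_inv]
      rfl
    have hg := (inn mul).mul_mem (hin _ (hT (mul a x)))
      ((inn mul).mul_mem (hin _ hRR) ((inn mul).inv_mem (hin _ (hT a))))
    rw [← hμ _ hg (ld h a b)]
    congr 1
    change (Lp h (mul a x))⁻¹ (mul b x) = (Lp h (mul a x))⁻¹ ((Rp h (mul a x)) ((Rp h (mul a x))⁻¹
      (Rp h x (Rp h a (((Lp h a)⁻¹ * Rp h a)⁻¹ (ld h a b))))))
    rw [app_inv]
    have : Rp h a (((Lp h a)⁻¹ * Rp h a)⁻¹ (ld h a b)) = b := by
      rw [_root_.mul_inv_rev, inv_inv, Equiv.Perm.mul_apply, app_inv]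
      exact mul_ld h a b
    rw [this]
    rfl
  exact ⟨fun x a b => hL x b a, fun x a b => hR x b a⟩

end CAL
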