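import Pool.Agent.CAL.K1

set_option autoImplicit false
set_option linter.unusedSectionVars false

/-!
Row CAL-Sph: spherical functions.
-/

namespace CAL

open Matrix

variable {Q : Type} [Fintype Q] [DecidableEq Q] {mul : Q → Q → Q} {e : Q}

/-- `E (b, a) = (f / n) phi (a \ b)` (`inv_left`). -/
theorem sph_apply (h : IsLoop mul e) {E : Matrix Q Q ℂ} {f : ℕ} (hE : Sph mul E f) (a b : Q) :
    E b a = ((f : ℂ) / (Fintype.card Q : ℂ)) * phi E f e (ld h a b) := by
  have hn : (Fintype.card Q : ℂ) ≠ 0 := by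
    have : 0 < Fintype.card Q := Fintype.card_pos_iff.2 ⟨a⟩
    exact_mod_cast this.ne'
  have hf : (f : ℂ) ≠ 0 := by exact_mod_cast hE.pos.ne'
  unfold phi
  rw [inv_left h hE.inv a b, ← mul_assoc, div_mul_div_comm, mul_comm (f : ℂ),
    div_self (mul_ne_zero hn hf), one_mul]

/-- All diagonal entries are equal (left invariance) and their sum is `f`, so `E (e, e) = f / n`. -/
theorem phi_e (h : IsLoop mul e) {E : Matrix Q Q ℂ} {f : ℕ} (hE : Sph mul E f) :
    phi E f e e = 1 := by
  have hn : (Fintype.card Q : ℂ) ≠ 0 := by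
    have : 0 < Fintype.card Q := Fintype.card_pos_iff.2 ⟨e⟩
    exact_mod_cast this.ne'
  have hf : (f : ℂ) ≠ 0 := by exact_mod_cast hE.pos.ne'
  have htr := hE.tr
  rw [Matrix.trace] at htr
  have h1 : ∀ a ∈ (Finset.univ : Finset Q), (Matrix.diag E) a = E e e := by
    intro a _
    rw [Matrix.diag_apply, inv_left h hE.inv a a, ld_self]
  rw [Finset.sum_congr rfl h1, Finset.sum_const, Finset.card_univ, nsmul_eq_mul] at htr
  unfold phi
  rw [div_mul_eq_mul_div, htr, div_self hf]

/-- `phi` is constant on the orbits of `inn` (`inv_inn` and `g e = e`). -/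
theorem phi_inn (h : IsLoop mul e) {E : Matrix Q Q ℂ} {f : ℕ} (hE : Sph mul E f)
    {g : Equiv.Perm Q} (hg : g ∈ inn mul) (z : Q) : phi E f e (g z) = phi E f e z := by
  have hge : g e = e := by
    unfold inn at hg
    induction hg using Subgroup.closure_induction with
    | mem p hp =>
      rcases hp with ⟨x, y, hp⟩ | ⟨x, y, hp⟩ | ⟨x, hp⟩
      · have := hp e
        rw [h.mul_one] at this
        exact mul_left_inj' h (this.trans (h.mul_one _).symm)
      · have := hp e
        rw [h.one_mul] at this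
        exact mul_right_inj' h (this.trans (h.one_mul _).symm)
      · have := hp e
        rw [h.one_mul] at this
        exact mul_left_inj' h (this.trans (h.mul_one _).symm)
    | one => rfl
    | mul p q _ _ hp hq => rw [Equiv.Perm.mul_apply, hq, hp]
    | inv p _ hp =>
      have := inv_app p e
      rw [hp] at this
      exact this
  unfold phi
  have := inv_inn hE.inv hg z e
  rw [hge] at this
  rw [this]

/-- `Σ_z E (z, e) = (ones * E) (e, e)` and `ones * E = E * ones = 0` (`inv_comm`). -/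
theorem sum_phi (h : IsLoop mul e) {E : Matrix Q Q ℂ} {f : ℕ} (hE : Sph mul E f)
    (h0 : E * ones Q = 0) : ∑ z, phi E f e z = 0 := by
  have h1 : ones Q * E = 0 := by
    rw [inv_comm h inv_ones hE.inv, h0]
  have h2 : (ones Q * E) e e = 0 := by rw [h1]; rfl
  rw [Matrix.mul_apply] at h2
  unfold phi
  rw [← Finset.mul_sum]
  have h3 : ∑ z, E z e = 0 := by
    rw [← h2]
    refine Finset.sum_congr rfl fun z _ => ?_
    unfold ones
    rw [one_mul]
  rw [h3, mul_zero]

/-- `Σ_z |E (z, e)|^2 = Σ_z E (e, z) E (z, e) = (E * E) (e, e) = E (e, e) = f / n`. -/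
theorem sum_norm (h : IsLoop mul e) {E : Matrix Q Q ℂ} {f : ℕ} (hE : Sph mul E f) :
    ∑ z, ‖phi E f e z‖ ^ 2 = (Fintype.card Q : ℝ) / (f : ℝ) := by
  have hn : (Fintype.card Q : ℂ) ≠ 0 := by
    have : 0 < Fintype.card Q := Fintype.card_pos_iff.2 ⟨e⟩
    exact_mod_cast this.ne'
  have hf : (f : ℂ) ≠ 0 := by exact_mod_cast hE.pos.ne'
  have hee : E e e = (f : ℂ) / (Fintype.card Q : ℂ) := by
    have := phi_e h hE
    unfold phi at this
    rw [eq_div_iff hn]
    rw [div_mul_eq_mul_div, div_eq_one_iff_eq hf] at this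
    rw [mul_comm]
    exact this
  have h1 : (E * E) e e = E e e := by rw [hE.idem]
  rw [Matrix.mul_apply, hee] at h1
  have h2 : ∀ z, E e z * E z e = ((‖E z e‖ ^ 2 : ℝ) : ℂ) := by
    intro z
    have h3 : E e z = star (E z e) := by
      have := congrFun (congrFun hE.herm e) z
      rw [Matrix.conjTranspose_apply] at this
      exact this.symm
    rw [h3]
    push_cast
    have := Complex.conj_mul' (E z e)
    exact this
  rw [Finset.sum_congr rfl fun z _ => h2 z] at h1
  have h4 : ∑ z, ‖E z e‖ ^ 2 = (f : ℝ) / (Fintype.card Q : ℝ) := by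
    have h5 : ((∑ z, ‖E z e‖ ^ 2 : ℝ) : ℂ) = (((f : ℝ) / (Fintype.card Q : ℝ) : ℝ) : ℂ) := by
      push_cast
      push_cast at h1
      exact h1
    exact_mod_cast h5
  have hnR : (Fintype.card Q : ℝ) ≠ 0 := by exact_mod_cast hn
  have hfR : (f : ℝ) ≠ 0 := by exact_mod_cast hf
  have h6 : ∀ z, ‖phi E f e z‖ ^ 2 = ((Fintype.card Q : ℝ) / (f : ℝ)) ^ 2 * ‖E z e‖ ^ 2 := by
    intro z
    unfold phi
    rw [norm_mul, mul_pow, norm_div, Complex.norm_natCast, Complex.norm_natCast]
  rw [Finset.sum_congr rfl fun z _ => h6 z, ← Finset.mul_sum, h4]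
  field_simp

/-- `trace (E * rho g) = Σ_a E (g a, a)`. -/
theorem trace_rho (h : IsLoop mul e) {E : Matrix Q Q ℂ} {f : ℕ} (hE : Sph mul E f)
    (g : Equiv.Perm Q) :
    (E * rho g).trace = ((f : ℂ) / (Fintype.card Q : ℂ)) * ∑ a, phi E f e (ld h a (g a)) := by
  rw [Matrix.trace, Finset.mul_sum]
  have h1 : ∀ a : Q, (Matrix.diag (E * rho g)) a = E a (g⁻¹ a) := by
    intro a
    rw [Matrix.diag_apply, Matrix.mul_apply]
    rw [Finset.sum_eq_single (g⁻¹ a)]
    · unfold rho
      rw [if_pos (app_inv g a).symm, mul_one]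
    · intro b _ hb
      unfold rho
      rw [if_neg, mul_zero]
      intro hab
      apply hb
      rw [hab, inv_app]
    · intro hh
      exact absurd (Finset.mem_univ _) hh
  rw [Finset.sum_congr rfl fun a _ => h1 a, ← Equiv.sum_comp g]
  refine Finset.sum_congr rfl fun a _ => ?_
  rw [inv_app, sph_apply h hE a (g a)]

/-- `a \ (a x) = x`. -/
theorem trace_R (h : IsLoop mul e) {E : Matrix Q Q ℂ} {f : ℕ} (hE : Sph mul E f) (x : Q) :
    (E * rho (Rp h x)).trace = (f : ℂ) * phi E f e x := by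
  have hn : (Fintype.card Q : ℂ) ≠ 0 := by
    have : 0 < Fintype.card Q := Fintype.card_pos_iff.2 ⟨e⟩
    exact_mod_cast this.ne'
  rw [trace_rho h hE]
  have h1 : ∀ a : Q, phi E f e (ld h a ((Rp h x) a)) = phi E f e x := by
    intro a
    rw [Rp_apply, ld_mul]
  rw [Finset.sum_congr rfl fun a _ => h1 a, Finset.sum_const, Finset.card_univ, nsmul_eq_mul]
  field_simp

/-- `E` commutes with right translations: `(rho E) (a, b) = E (a x, b)`, `(E rho) (a, b x) = E (a, b)`. -/
theorem comm_R (h : IsLoop mul e) {E : Matrix Q Q ℂ} {f : ℕ} (hE : Sph mul E f) (x : Q) :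
    E * rho (Rp h x) = rho (Rp h x) * E := by
  ext a b
  rw [Matrix.mul_apply, Matrix.mul_apply]
  rw [Finset.sum_eq_single ((Rp h x)⁻¹ b), Finset.sum_eq_single ((Rp h x) a)]
  · unfold rho
    rw [if_pos (app_inv (Rp h x) b).symm, if_pos rfl, mul_one, one_mul]
    have := hE.inv.2 x a ((Rp h x)⁻¹ b)
    have h2 : mul ((Rp h x)⁻¹ b) x = b := app_inv (Rp h x) b
    rw [h2] at this
    exact this.symm
  · intro c _ hc
    unfold rho
    rw [if_neg hc, zero_mul]
  · intro hh
    exact absurd (Finset.mem_univ _) hh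
  · intro c _ hc
    unfold rho
    rw [if_neg, mul_zero]
    intro hb
    apply hc
    rw [hb, inv_app]
  · intro hh
    exact absurd (Finset.mem_univ _) hh

end CAL
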